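import Pool.Agent.Run7.h810.Coeff

open CategoryTheory MonoidalCategory CartesianMonoidalCategory

namespace Run7.h810

universe w v u

variable {C : Type u} [Category.{v} C] [CartesianMonoidalCategory C] {T : ChowTheory.{w} C}

/-- the number of additional markings that kills the coefficient of index `i` -/
def cc (i : ℕ) : ℕ := (i + 1) ^ 2

namespace PrestableCurves

variable (P : PrestableCurves T)

/-- the coefficient of index `i` of a class on `𝔐_{0,2}` that dies on `M̄_{0,N}` vanishes -/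
def GProp (i : ℕ) : Prop :=
  ∀ (Y : C) (x : T.CH (Y ⊗ P.M 0 2)) (N : ℕ) (h : 2 ≤ N), 2 + cc i ≤ N →
    T.pull (Y ◁ P.F 0 h) x = 0 → (T.co Y (T.pull (Y ◁ P.j₂) x)).coeff i = 0

/-- the coefficients of the bubble polynomial die on `M̄_{g,N₁}` -/
lemma coeff_dies {i : ℕ} (hG : P.GProp i) {Y : C} {g n : ℕ} (x : T.CH (Y ⊗ P.M g (n + 1)))
    {N₁ N : ℕ} (h₁ : n + 1 ≤ N₁) (h : n + 1 ≤ N) (hN : N₁ + cc i ≤ N) (hs : 2 < 2 * g + N₁)
    (hx : T.pull (Y ◁ P.F g h) x = 0) :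
    T.pull (Y ◁ P.F g h₁) ((P.zc x).coeff i) = 0 := by
  obtain ⟨A, rfl⟩ : ∃ A, N₁ = A + 1 := ⟨N₁ - 1, by omega⟩
  have hA : n ≤ A := by omega
  have hB : 1 ≤ cc i + 1 := by omega
  have hAB : A + 1 + cc i = A + (cc i + 1) := by omega
  have hx' : T.pull (Y ◁ P.F g (Nat.add_le_add hA hB)) x = 0 :=
    P.mono (Nat.add_le_add hA hB) (by omega) (by omega) x hx
  obtain ⟨t, ht⟩ := P.lift_sep g 0 hA hB
  -- the class on `(Y × M̄) × 𝔐_{0,2}`
  let x' : T.CH ((Y ⊗ P.Mbar g (A + 1)) ⊗ P.M 0 2) :=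
    T.pull (lift (fst _ _ ≫ fst _ _)
      (lift (fst _ _ ≫ snd _ _ ≫ P.F g h₁) (snd _ _) ≫ (P.sep g 0 n 1 : _ ⟶ P.M g (n + 1)))) x
  have h2 : T.pull ((Y ⊗ P.Mbar g (A + 1)) ◁ P.F 0 (Nat.succ_le_succ hB)) x' = 0 := by
    have e : (Y ⊗ P.Mbar g (A + 1)) ◁ P.F 0 (Nat.succ_le_succ hB) ≫ lift (fst _ _ ≫ fst _ _)
        (lift (fst _ _ ≫ snd _ _ ≫ P.F g h₁) (snd _ _) ≫ (P.sep g 0 n 1 : _ ⟶ P.M g (n + 1))) =
        lift (fst _ _ ≫ fst _ _) (lift (fst _ _ ≫ snd _ _) (snd _ _) ≫ t) ≫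
          (Y ◁ P.F g (Nat.add_le_add hA hB)) := by
      apply CartesianMonoidalCategory.hom_ext
      · simp
      · simp only [comp_lift, lift_snd, whiskerLeft_snd, whiskerLeft_fst_assoc, lift_snd_assoc,
          Category.assoc, comp_lift_assoc]
        have ht' := congrArg (fun s => lift (fst (Y ⊗ P.Mbar g (A + 1)) (P.Mbar 0 (cc i + 1 + 1)) ≫
          snd _ _) (snd _ _) ≫ s) ht
        simp only [lift_map_assoc] at ht'
        refine Eq.trans ?_ ht'.symm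
        simp only [Category.assoc]
    rw [T.pull_pull, e, ← T.pull_pull, hx', map_zero]
  have h3 := hG _ x' (cc i + 1 + 1) (Nat.succ_le_succ hB) (by omega) h2
  have e2 : (Y ⊗ P.Mbar g (A + 1)) ◁ P.j₂ ≫ lift (fst _ _ ≫ fst _ _)
        (lift (fst _ _ ≫ snd _ _ ≫ P.F g h₁) (snd _ _) ≫ (P.sep g 0 n 1 : _ ⟶ P.M g (n + 1))) =
      (Y ◁ P.F g h₁) ▷ T.BGm ≫ P.bubMap Y g n := by
    apply CartesianMonoidalCategory.hom_ext
    · simp [bubMap]
    · simp only [comp_lift, lift_snd, whiskerLeft_snd, whiskerLeft_fst_assoc,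
          comp_lift_assoc, bubMap, whiskerRight_fst_assoc, whiskerRight_snd_assoc]
  rw [T.pull_pull, e2, ← T.pull_pull, T.co_pull, Polynomial.coeff_map] at h3
  exact h3

omit [CartesianMonoidalCategory C] in
lemma eval₂_single {R S : Type*} [CommRing R] [CommRing S] (φ : R →+* S) (p : Polynomial R)
    (s : S) (i : ℕ) (hs : s ^ (i + 1) = 0) (hp : ∀ j < i, φ (p.coeff j) = 0) :
    p.eval₂ φ s = φ (p.coeff i) * s ^ i := by
  rw [Polynomial.eval₂_eq_sum_range]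
  by_cases hi : i ∈ Finset.range (p.natDegree + 1)
  · rw [Finset.sum_eq_single_of_mem i hi]
    intro b _ hb
    rcases Nat.lt_or_gt_of_ne hb with h | h
    · rw [hp b h, zero_mul]
    · have : s ^ b = 0 := by
        obtain ⟨k, rfl⟩ := Nat.exists_eq_add_of_lt h
        rw [show i + k + 1 = (i + 1) + k by ring, pow_add, hs, zero_mul]
      rw [this, mul_zero]
  · have h0 : p.coeff i = 0 := by
      apply Polynomial.coeff_eq_zero_of_natDegree_lt
      simpa using hi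
    rw [h0, map_zero, zero_mul]
    apply Finset.sum_eq_zero
    intro b hb
    rw [hp b, zero_mul]
    simp only [Finset.mem_range] at hi hb
    omega

/-- the coefficient of index `i` vanishes at the point -/
lemma coeff_point {i : ℕ} (hG : ∀ j < i, P.GProp j) {Y : C} (x : T.CH (Y ⊗ P.M 0 2))
    {N : ℕ} (h : 2 ≤ N) (hN : 2 + cc i ≤ N) (hx : T.pull (Y ◁ P.F 0 h) x = 0)
    (pt : 𝟙_ C ⟶ P.Mbar 0 (i + 3)) (b : 𝟙_ C ⟶ T.BGm)
    (hpt : pt ≫ P.F 0 (Nat.le_add_left 2 (i + 1)) = b ≫ P.j₂)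
    (hpsi : T.pull (P.F 0 (Nat.le_add_left 2 (i + 1))) (P.psi 0 1) ^ (i + 1) = 0)
    (I : T.CH (Y ⊗ P.Mbar 0 (i + 3)) →ₗ[ℚ] T.CH Y)
    (hI : ∀ a, I (T.pull (snd Y _ ≫ P.F 0 (Nat.le_add_left 2 (i + 1))) (P.psi 0 1) ^ i * a) =
        T.pull (lift (𝟙 Y) (toUnit Y ≫ pt)) a) :
    T.pull (lift (𝟙 Y) (toUnit Y ≫ b ≫ P.j₂)) ((P.zc x).coeff i) = 0 := by
  have hcc : i + 3 ≤ N := by
    have : i + 1 ≤ cc i := by unfold cc; nlinarith
    omega
  have h3 : T.pull (Y ◁ P.F 0 (Nat.le_add_left 2 (i + 1))) x = 0 :=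
    P.mono (Nat.le_add_left 2 (i + 1)) hcc (by omega) x hx
  have h4 : ∀ j < i, T.pull (Y ◁ P.F 0 (Nat.le_add_left 2 (i + 1))) ((P.zc x).coeff j) = 0 := by
    intro j hj
    refine P.coeff_dies (hG j hj) x (N₁ := i + 3) _ h ?_ (by omega) hx
    have : cc j + (i + 1) ≤ cc i := by unfold cc; nlinarith
    omega
  have h5 : T.pull (Y ◁ P.F 0 (Nat.le_add_left 2 (i + 1))) (-T.pull (snd Y _) (P.psi 0 1)) =
      -T.pull (snd Y _ ≫ P.F 0 (Nat.le_add_left 2 (i + 1))) (P.psi 0 1) := by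
    rw [map_neg, T.pull_pull, whiskerLeft_snd]
  have h6 := congrArg (T.pull (Y ◁ P.F 0 (Nat.le_add_left 2 (i + 1)))) (P.eq_eval_zc x)
  rw [h3] at h6
  have h7 := Polynomial.eval₂_at_apply
    (T.pull (Y ◁ P.F 0 (Nat.le_add_left 2 (i + 1)))).toRingHom
    (p := P.zc x) (-T.pull (snd Y _) (P.psi 0 1))
  have h8 := h7.trans h6.symm
  have h9 : (T.pull (Y ◁ P.F 0 (Nat.le_add_left 2 (i + 1)))).toRingHom
      (-T.pull (snd Y _) (P.psi 0 1)) =
      -T.pull (snd Y _ ≫ P.F 0 (Nat.le_add_left 2 (i + 1))) (P.psi 0 1) := h5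
  rw [h9, eval₂_single _ _ _ i] at h8
  · have h10 : T.pull (snd Y _ ≫ P.F 0 (Nat.le_add_left 2 (i + 1))) (P.psi 0 1) ^ i *
        T.pull (Y ◁ P.F 0 (Nat.le_add_left 2 (i + 1))) ((P.zc x).coeff i) = 0 := by
      have h11 : T.pull (Y ◁ P.F 0 (Nat.le_add_left 2 (i + 1))) ((P.zc x).coeff i) *
          (-T.pull (snd Y _ ≫ P.F 0 (Nat.le_add_left 2 (i + 1))) (P.psi 0 1)) ^ i = 0 := h8
      rw [neg_pow, mul_left_comm] at h11
      have h12 : ((-1 : T.CH (Y ⊗ P.Mbar 0 (i + 3))) ^ i) * ((-1) ^ i) = 1 := by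
        rw [← mul_pow]; simp
      have h13 := congrArg (fun s => (-1) ^ i * s) h11
      simp only [mul_zero] at h13
      rw [← mul_assoc, h12, one_mul] at h13
      rw [mul_comm]
      exact h13
    have h14 := hI (T.pull (Y ◁ P.F 0 (Nat.le_add_left 2 (i + 1))) ((P.zc x).coeff i))
    rw [h10, map_zero, T.pull_pull] at h14
    rw [h14]
    congr 2
    apply CartesianMonoidalCategory.hom_ext
    · simp
    · simp [hpt]
  · rw [neg_pow, ← T.pull_pull, ← map_pow, hpsi]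
    simp
  · exact h4

/-- interchanging the two sides of the node -/
lemma coeff_swap {Y : C} (x : T.CH (Y ⊗ P.M 0 2)) (i : ℕ) (b : 𝟙_ C ⟶ T.BGm)
    (hb : T.pull b T.c = 0) :
    (T.co Y (T.pull (Y ◁ P.j₂) ((P.zc x).coeff 0))).coeff i =
      T.pull (lift (𝟙 Y) (toUnit Y ≫ b ≫ P.j₂))
        ((P.zc (T.pull (Y ◁ P.perm 0 (Equiv.swap 0 1)) x)).coeff i) := by
  have h1 : (P.zc x).coeff 0 = T.pull (lift (𝟙 _) (toUnit _ ≫ b)) (T.pull (P.bubMap Y 0 1) x) :=
    co_coeff_zero _ b hb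
  have h2 : T.pull (lift (𝟙 Y) (toUnit Y ≫ b ≫ P.j₂))
        ((P.zc (T.pull (Y ◁ P.perm 0 (Equiv.swap 0 1)) x)).coeff i) =
      (T.co Y (T.pull (lift (𝟙 Y) (toUnit Y ≫ b ≫ P.j₂) ▷ T.BGm)
        (T.pull (P.bubMap Y 0 1) (T.pull (Y ◁ P.perm 0 (Equiv.swap 0 1)) x)))).coeff i := by
    rw [T.co_pull, Polynomial.coeff_map]
    rfl
  rw [h1, h2, T.pull_pull, T.pull_pull, T.pull_pull, T.pull_pull]
  congr 4
  apply CartesianMonoidalCategory.hom_ext
  · simp [bubMap]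
  · have e := congrArg (fun s => lift (toUnit (Y ⊗ T.BGm) ≫ b ≫ P.j₂) (snd Y T.BGm ≫ P.j₂) ≫ s)
      P.sep_swap
    simp only [comp_lift_assoc, lift_fst, lift_snd] at e
    simp only [bubMap, comp_lift, comp_lift_assoc, lift_snd, lift_fst_assoc, lift_snd_assoc,
      whiskerLeft_snd, whiskerRight_fst_assoc, whiskerRight_snd_assoc, Category.assoc,
      Category.comp_id]
    refine Eq.trans ?_ (Eq.trans e.symm ?_)
    · rw [toUnit_eq_comp (Y ◁ P.j₂) (b ≫ P.j₂)]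
    · rw [toUnit_eq_comp (fst Y T.BGm) (b ≫ P.j₂)]

lemma cc_add {i j : ℕ} (h0 : 0 < j) (h1 : j < i) : cc (i - j) + cc j ≤ cc i := by
  obtain ⟨k, rfl⟩ : ∃ k, i = j + k := ⟨i - j, by omega⟩
  have hk : 0 < k := by omega
  rw [Nat.add_sub_cancel_left]
  unfold cc
  nlinarith [Nat.mul_pos h0 hk]

/-- Lemma G -/
theorem gProp : ∀ i, P.GProp i := by
  intro i
  induction i using Nat.strong_induction_on with
  | _ i hG =>
  intro Y x N h hN hx
  obtain ⟨pt, b, hpt, hb, hpsi, hI⟩ := P.point i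
  obtain ⟨I, hI⟩ := hI Y
  have hx1 := P.coeff_point hG x h hN hx pt b hpt hpsi I hI
  -- the other side of the node
  have hx2 : (T.co Y (T.pull (Y ◁ P.j₂) ((P.zc x).coeff 0))).coeff i = 0 := by
    rw [P.coeff_swap x i b hb]
    refine P.coeff_point hG _ h hN ?_ pt b hpt hpsi I hI
    obtain ⟨t, ht⟩ := P.lift_perm 0 h (Equiv.swap 0 1)
    rw [T.pull_pull, ← MonoidalCategory.whiskerLeft_comp, ← ht,
      MonoidalCategory.whiskerLeft_comp, ← T.pull_pull, hx, map_zero]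
  -- expand
  have h1 := congrArg (T.pull (Y ◁ P.j₂)) (P.eq_eval_zc x)
  have h2 := Polynomial.eval₂_at_apply (T.pull (Y ◁ P.j₂)).toRingHom
    (p := P.zc x) (-T.pull (snd Y _) (P.psi 0 1))
  have h3 := h1.trans h2.symm
  have h4 : (T.pull (Y ◁ P.j₂)).toRingHom (-T.pull (snd Y _) (P.psi 0 1)) =
      -T.pull (snd Y _) T.c := by
    change T.pull (Y ◁ P.j₂) (-T.pull (snd Y _) (P.psi 0 1)) = _
    rw [map_neg, T.pull_pull, whiskerLeft_snd, ← T.pull_pull, P.psi_two]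
  rw [h4, Polynomial.eval₂_eq_sum_range] at h3
  rw [h3, map_sum, Polynomial.finsetSum_coeff]
  apply Finset.sum_eq_zero
  intro j _
  rw [map_mul, map_pow, map_neg, T.co_snd, neg_pow, ← mul_assoc,
    Polynomial.coeff_mul_X_pow']
  split_ifs with hj
  · have h5 : ((-1 : Polynomial (T.CH Y)) ^ j) = Polynomial.C ((-1) ^ j) := by simp
    rw [h5, Polynomial.coeff_mul_C]
    have h6 : (T.co Y (T.pull (Y ◁ P.j₂) ((P.zc x).coeff j))).coeff (i - j) = 0 := by
      rcases Nat.eq_zero_or_pos j with rfl | hj0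
      · exact hx2
      · rcases Nat.lt_or_ge j i with hji | hji
        · refine hG (i - j) (by omega) Y _ (2 + cc (i - j)) (by omega) (le_refl _) ?_
          refine P.coeff_dies (hG j hji) x _ h ?_ ?_ hx
          · have := cc_add hj0 hji
            omega
          · have : 0 < cc (i - j) := by unfold cc; positivity
            omega
        · have : j = i := le_antisymm hj hji
          subst this
          rw [Nat.sub_self, co_coeff_zero _ b hb, T.pull_pull]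
          rw [← hx1]
          congr 2
          apply CartesianMonoidalCategory.hom_ext
          · simp
          · simp
    have h7 : (T.co Y ((T.pull (Y ◁ P.j₂)).toRingHom ((P.zc x).coeff j))).coeff (i - j) = 0 := h6
    rw [h7, zero_mul]
  · rfl

end PrestableCurves

end Run7.h810
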