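import Pool.Agent.Run7.h810.Curves

open CategoryTheory MonoidalCategory CartesianMonoidalCategory

namespace Run7.h810

universe w v u

variable {C : Type u} [Category.{v} C] [CartesianMonoidalCategory C] {T : ChowTheory.{w} C}

lemma toUnit_eq_comp {X Y Z : C} (s : X ⟶ Y) (z : 𝟙_ C ⟶ Z) :
    toUnit X ≫ z = s ≫ toUnit Y ≫ z := by
  rw [← Category.assoc]
  congr 1
  exact toUnit_unique _ _

namespace PrestableCurves

variable (P : PrestableCurves T)

/-- attach a smooth rational component with two special points at the last marking -/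
def bubMap (Y : C) (g n : ℕ) : (Y ⊗ P.M g (n + 1)) ⊗ T.BGm ⟶ Y ⊗ P.M g (n + 1) :=
  lift (fst _ _ ≫ fst _ _) (lift (fst _ _ ≫ snd _ _) (snd _ _ ≫ P.j₂) ≫ P.sep g 0 n 1)

/-- the polynomial of the pullback along `bubMap` -/
noncomputable def zc {Y : C} {g n : ℕ} (x : T.CH (Y ⊗ P.M g (n + 1))) :
    Polynomial (T.CH (Y ⊗ P.M g (n + 1))) :=
  T.co _ (T.pull (P.bubMap Y g n) x)

/-- (R2) a class is the value of its bubble polynomial at `-ψ` -/
lemma eq_eval_zc {Y : C} {g n : ℕ} (x : T.CH (Y ⊗ P.M g (n + 1))) :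
    x = (P.zc x).eval (-T.pull (snd Y _) (P.psi g n)) := by
  let K : (Y ⊗ P.M g (n + 1)) ⊗ T.A1 ⟶ Y ⊗ P.M g (n + 1) :=
    lift (fst _ _ ≫ fst _ _) (lift (fst _ _ ≫ snd _ _) (snd _ _) ≫ P.blow g n)
  have h := T.homotopy_eq K x
  have e : ∀ z : 𝟙_ C ⟶ T.A1, lift (𝟙 (Y ⊗ P.M g (n + 1))) (toUnit _ ≫ z) ≫ K =
      lift (fst _ _) (snd _ _ ≫ lift (𝟙 _) (toUnit _ ≫ z) ≫ P.blow g n) := by
    intro z
    apply CartesianMonoidalCategory.hom_ext
    · simp [K]
    · simp only [K, comp_lift, lift_snd, Category.id_comp, comp_lift_assoc, lift_fst_assoc,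
        Category.comp_id]
      rw [toUnit_eq_comp (snd Y (P.M g (n + 1))) z]
  rw [e, e, P.blow_one, P.blow_zero, Category.comp_id, lift_fst_snd, T.pull_id] at h
  have h0 : lift (fst Y (P.M g (n + 1))) (snd Y (P.M g (n + 1)) ≫
      lift (𝟙 _) (P.ell g n ≫ P.j₂) ≫ (P.sep g 0 n 1 : _ ⟶ P.M g (n + 1))) =
      lift (𝟙 _) (snd _ _ ≫ P.ell g n) ≫ P.bubMap Y g n := by
    apply CartesianMonoidalCategory.hom_ext
    · simp [bubMap]
    · simp only [bubMap, comp_lift, lift_snd, Category.id_comp, comp_lift_assoc, lift_fst_assoc,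
        Category.comp_id, lift_snd_assoc, Category.assoc]
  have h2 : T.pull (lift (fst Y (P.M g (n + 1))) (snd Y (P.M g (n + 1)) ≫
      lift (𝟙 _) (P.ell g n ≫ P.j₂) ≫ (P.sep g 0 n 1 : _ ⟶ P.M g (n + 1)))) x = x := h
  rw [h0, ← T.pull_pull, T.pull_lift_eq, ← T.pull_pull, P.ell_c, map_neg] at h2
  have hid : (T.pull (𝟙 (Y ⊗ P.M g (n + 1)))).toRingHom = RingHom.id _ := by
    ext a; exact T.pull_id _ a
  rw [hid, Polynomial.eval₂_id] at h2
  exact h2.symm

lemma pull_bubMap_of_coeff {Y : C} {g n : ℕ} (x : T.CH (Y ⊗ P.M g (n + 1)))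
    (h : ∀ j, 1 ≤ j → (P.zc x).coeff j = 0) :
    T.pull (P.bubMap Y g n) x = T.pull (fst _ _) x := by
  have h1 : P.zc x = Polynomial.C ((P.zc x).coeff 0) := by
    ext j
    rcases Nat.eq_zero_or_pos j with rfl | hj
    · simp
    · rw [h j hj, Polynomial.coeff_C, if_neg (by omega)]
  have h2 := P.eq_eval_zc x
  rw [h1, Polynomial.eval_C] at h2
  apply (T.co _).injective
  rw [T.co_fst]
  change P.zc x = _
  rw [h1, ← h2]

/-- naturality of the bubble polynomial in the parameter -/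
lemma zc_pull {Y Y' : C} (y : Y' ⟶ Y) {g n : ℕ} (x : T.CH (Y ⊗ P.M g (n + 1))) :
    P.zc (T.pull (y ▷ P.M g (n + 1)) x) = (P.zc x).map (T.pull (y ▷ P.M g (n + 1))).toRingHom := by
  unfold zc
  rw [← T.co_pull, T.pull_pull, T.pull_pull]
  congr 3
  apply CartesianMonoidalCategory.hom_ext
  · simp [bubMap]
  · simp only [bubMap, comp_lift, comp_lift_assoc, lift_snd, whiskerRight_fst_assoc,
      whiskerRight_snd, whiskerRight_snd_assoc, Category.assoc]

/-- the value at the point of `B𝔾ₘ` is the constant coefficient -/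
lemma co_coeff_zero {X : C} (Q : T.CH (X ⊗ T.BGm)) (b : 𝟙_ C ⟶ T.BGm) (hb : T.pull b T.c = 0) :
    (T.co X Q).coeff 0 = T.pull (lift (𝟙 X) (toUnit X ≫ b)) Q := by
  rw [T.pull_lift_eq, ← T.pull_pull, hb, map_zero]
  have hid : (T.pull (𝟙 X)).toRingHom = RingHom.id _ := by
    ext a; exact T.pull_id _ a
  rw [hid, Polynomial.eval₂_id, Polynomial.coeff_zero_eq_eval_zero]

/-- if a class dies on `M̄_{g,N+1}` it dies on `M̄_{g,N}` -/
lemma mono_step {Y : C} {g n N : ℕ} (h : n ≤ N) (hs : 2 < 2 * g + N) (x : T.CH (Y ⊗ P.M g n))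
    (hx : T.pull (Y ◁ P.F g (Nat.le_succ_of_le h)) x = 0) : T.pull (Y ◁ P.F g h) x = 0 := by
  obtain ⟨π, V, i, h1, h2⟩ := P.dilaton g N hs
  obtain ⟨h3, p, h4⟩ := h2 Y
  have h5 : T.pull (Y ◁ i) (T.pull (Y ◁ π) (T.pull (Y ◁ P.F g h) x)) = 0 := by
    rw [T.pull_pull, T.pull_pull, ← MonoidalCategory.whiskerLeft_comp,
      ← MonoidalCategory.whiskerLeft_comp, Category.assoc, ← h1 n h,
      MonoidalCategory.whiskerLeft_comp, ← T.pull_pull, hx, map_zero]
  have h6 := h3 _ h5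
  have h7 := h4 (T.pull (Y ◁ P.F g h) x)
  rw [h6, map_zero] at h7
  have h8 : (2 * (g : ℚ) - 2 + N) ≠ 0 := by
    have : (2 : ℚ) < 2 * g + N := by exact_mod_cast hs
    intro h9
    linarith
  exact (smul_eq_zero.mp h7.symm).resolve_left h8

lemma mono {Y : C} {g n N N' : ℕ} (h : n ≤ N) (hN : N ≤ N') (hs : 2 < 2 * g + N)
    (x : T.CH (Y ⊗ P.M g n))
    (hx : T.pull (Y ◁ P.F g (h.trans hN)) x = 0) : T.pull (Y ◁ P.F g h) x = 0 := by
  induction N', hN using Nat.le_induction with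
  | base => exact hx
  | succ m hm ih => exact ih (P.mono_step (h.trans hm) (by omega) x hx)

end PrestableCurves

end Run7.h810
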