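import Pool.Agent.Run7.h810.Induct

open CategoryTheory MonoidalCategory CartesianMonoidalCategory

namespace Run7.h810

universe w v u

variable {C : Type u} [Category.{v} C] [CartesianMonoidalCategory C] {T : ChowTheory.{w} C}

namespace PrestableCurves

variable (P : PrestableCurves T)

lemma regular_aux {Z A : C} (θ : Z ⊗ T.BGm ⟶ A) (hθ : Function.Injective (T.pull θ))
    {ε : T.CH A} {a : T.CH Z}
    (hε : T.pull θ ε = T.pull (fst _ _) a - T.pull (snd _ _) T.c) {γ : T.CH A}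
    (h : ε * γ = 0) : γ = 0 := by
  apply hθ
  rw [map_zero]
  apply (T.co Z).injective
  rw [map_zero]
  have h1 := congrArg (fun s => T.co Z (T.pull θ s)) h
  simp only [map_mul, map_zero] at h1
  rw [hε, map_sub, T.co_fst, T.co_snd] at h1
  have h2 : (Polynomial.X - Polynomial.C a) * (T.co Z (T.pull θ γ)) = 0 := by
    rw [← neg_sub, neg_mul, h1, neg_zero]
  exact (Polynomial.monic_X_sub_C a).mul_right_eq_zero_iff.mp h2

/-- edge classes are regular, with any parameter space -/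
lemma edge_regular {S : C} {ε : T.CH S} (hε : IsEdgeClass P ε) {Y : C} {γ : T.CH (Y ⊗ S)}
    (h : T.pull (snd Y S) ε * γ = 0) : γ = 0 := by
  cases hε with
  | one X a e =>
    refine regular_aux (Z := Y ⊗ X) (a := T.pull (snd Y X) a)
      ((Y ⊗ X) ◁ P.φ₁ ≫ lift (fst _ _ ≫ fst _ _) (lift (fst _ _ ≫ snd _ _) (snd _ _) ≫ e.inv))
      ?_ ?_ h
    · intro s t hst
      rw [← T.pull_pull, ← T.pull_pull] at hst
      have h1 := P.φ₁_inj _ hst
      have h2 := congrArg (T.pull (lift (lift (fst Y S) (snd Y S ≫ e.hom ≫ fst _ _))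
        (snd Y S ≫ e.hom ≫ snd _ _))) h1
      have h3 : lift (lift (fst Y S) (snd Y S ≫ e.hom ≫ fst _ _))
          (snd Y S ≫ e.hom ≫ snd _ _) ≫
          lift (fst _ _ ≫ fst _ _) (lift (fst _ _ ≫ snd _ _) (snd _ _) ≫ e.inv) = 𝟙 _ := by
        apply CartesianMonoidalCategory.hom_ext
        · simp
        · have e1 : lift (snd Y S ≫ e.hom ≫ fst X P.B₁) (snd Y S ≫ e.hom ≫ snd X P.B₁) =
              snd Y S ≫ e.hom := by
            apply CartesianMonoidalCategory.hom_ext <;> simp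
          simp only [comp_lift, comp_lift_assoc, lift_snd, lift_fst_assoc]
          rw [e1]
          simp
      rw [T.pull_pull, T.pull_pull, h3, T.pull_id, T.pull_id] at h2
      exact h2
    · rw [T.pull_pull, T.pull_pull]
      have e1 : (((Y ⊗ X) ◁ P.φ₁ ≫ lift (fst _ _ ≫ fst _ _)
          (lift (fst _ _ ≫ snd _ _) (snd _ _) ≫ e.inv)) ≫ snd Y S) ≫ e.hom =
          lift (fst _ _ ≫ snd _ _) (snd _ _ ≫ P.φ₁) := by
        apply CartesianMonoidalCategory.hom_ext
        · simp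
        · simp
      rw [e1, map_sub, T.pull_pull, T.pull_pull, T.pull_pull, lift_fst, lift_snd_assoc,
        Category.assoc, ← T.pull_pull (snd (Y ⊗ X) T.BGm), P.psi_one]
  | two X a e =>
    refine regular_aux (Z := Y ⊗ X) (a := T.pull (snd Y X) a)
      (lift (fst _ _ ≫ fst _ _) (lift (fst _ _ ≫ snd _ _) (snd _ _) ≫ e.inv))
      ?_ ?_ h
    · intro s t hst
      have h2 := congrArg (T.pull (lift (lift (fst Y S) (snd Y S ≫ e.hom ≫ fst _ _))
        (snd Y S ≫ e.hom ≫ snd _ _))) hst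
      have h3 : lift (lift (fst Y S) (snd Y S ≫ e.hom ≫ fst _ _))
          (snd Y S ≫ e.hom ≫ snd _ _) ≫
          lift (fst _ _ ≫ fst _ _) (lift (fst _ _ ≫ snd _ _) (snd _ _) ≫ e.inv) = 𝟙 _ := by
        apply CartesianMonoidalCategory.hom_ext
        · simp
        · have e1 : lift (snd Y S ≫ e.hom ≫ fst X T.BGm) (snd Y S ≫ e.hom ≫ snd X T.BGm) =
              snd Y S ≫ e.hom := by
            apply CartesianMonoidalCategory.hom_ext <;> simp
          simp only [comp_lift, comp_lift_assoc, lift_snd, lift_fst_assoc]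
          rw [e1]
          simp
      rw [T.pull_pull, T.pull_pull, h3, T.pull_id, T.pull_id] at h2
      exact h2
    · rw [T.pull_pull, T.pull_pull]
      have e1 : ((lift (fst _ _ ≫ fst _ _)
          (lift (fst _ _ ≫ snd _ _) (snd _ _) ≫ e.inv)) ≫ snd Y S) ≫ e.hom =
          lift (fst _ _ ≫ snd _ _) (snd (Y ⊗ X) T.BGm) := by
        apply CartesianMonoidalCategory.hom_ext
        · simp
        · simp
      rw [e1, map_sub, T.pull_pull, T.pull_pull, T.pull_pull, lift_fst, lift_snd]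

lemma edges_regular {S : C} (l : List (T.CH S)) (hl : ∀ ε ∈ l, IsEdgeClass P ε) {Y : C}
    {γ : T.CH (Y ⊗ S)} (h : T.pull (snd Y S) l.prod * γ = 0) : γ = 0 := by
  induction l with
  | nil => simpa using h
  | cons ε l ih =>
    apply ih (fun ε' hε' => hl ε' (List.mem_cons_of_mem _ hε'))
    apply P.edge_regular (hl ε List.mem_cons_self)
    rw [← mul_assoc, ← map_mul, ← List.prod_cons, h]

/-- a class that is killed by all restrictions to the strata vanishes on all `U k` -/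
lemma pull_j_eq_zero {g n : ℕ} (Z : Stratification P g n) {Y : C} (x : T.CH (Y ⊗ P.M g n))
    (hb : T.pull (Y ◁ Z.j 0) x = 0)
    (hc : ∀ (S W : C) (r : S ⟶ W) (κ : S ⟶ P.M g n) (κ' : W ⟶ P.M g n),
      Contraction P r κ κ' → T.pull (Y ◁ κ) x = T.pull (Y ◁ (r ≫ κ')) x) (k : ℕ) :
    T.pull (Y ◁ Z.j k) x = 0 := by
  induction k with
  | zero => exact hb
  | succ k ih =>
    have h1 : T.pull (Y ◁ Z.i k) (T.pull (Y ◁ Z.j (k + 1)) x) = 0 := by
      rw [T.pull_pull, ← MonoidalCategory.whiskerLeft_comp, Z.i_j, ih]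
    obtain ⟨s, hs⟩ := Z.exact k Y _ h1
    obtain ⟨W, r, c, hr⟩ := Z.contract k
    obtain ⟨l, hl, hl'⟩ := Z.edges k
    have h2 := hc _ _ _ _ _ hr
    have h3 : T.pull (Y ◁ (r ≫ c ≫ Z.j k)) x = 0 := by
      rw [← Category.assoc, MonoidalCategory.whiskerLeft_comp, ← T.pull_pull, ih, map_zero]
    rw [h3, MonoidalCategory.whiskerLeft_comp, MonoidalCategory.whiskerLeft_comp,
      ← T.pull_pull, ← T.pull_pull, ← hs, Z.self, map_mul, T.pull_pull, whiskerLeft_snd,
      ← T.pull_pull, hl] at h2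
    have h4 := P.edges_regular l hl' h2
    have h5 : s = 0 := Z.q_inj k Y (by rw [h4, map_zero])
    rw [← hs, h5, map_zero]

/-- the main induction -/
theorem injAt (strata : ∀ g n, (g, n) ≠ (1, 0) → Nonempty (Stratification P g n)) :
    ∀ d g n, (g, n) ≠ (1, 0) → ∃ N₀, P.InjAt g n d N₀ := by
  intro d
  induction d using Nat.strong_induction_on with
  | _ d ih =>
  intro g n hgn
  classical
  -- a uniform bound
  obtain ⟨B, hB5, hB⟩ : ∃ B, n + 5 ≤ B ∧ ∀ d' < d, ∀ g' n', g' ≤ g → n' ≤ n + 2 →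
      (g', n') ≠ (1, 0) → P.InjAt g' n' d' B := by
    have h1 : ∀ d' g' n', ∃ N₀, d' < d → (g', n') ≠ (1, 0) → P.InjAt g' n' d' N₀ := by
      intro d' g' n'
      by_cases hd : d' < d
      · by_cases hg : (g', n') ≠ (1, 0)
        · obtain ⟨N₀, hN⟩ := ih d' hd g' n' hg
          exact ⟨N₀, fun _ _ => hN⟩
        · exact ⟨0, fun _ h => absurd h hg⟩
      · exact ⟨0, fun h => absurd h hd⟩
    choose N₀ hN₀ using h1
    refine ⟨(n + 5) + ∑ d' ∈ Finset.range d, ∑ g' ∈ Finset.range (g + 1),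
      ∑ n' ∈ Finset.range (n + 3), N₀ d' g' n', by omega, ?_⟩
    intro d' hd g' n' hg' hn' hne
    refine (hN₀ d' g' n' hd hne).mono P ?_
    have e1 : N₀ d' g' n' ≤ ∑ n' ∈ Finset.range (n + 3), N₀ d' g' n' :=
      Finset.single_le_sum (f := fun n' => N₀ d' g' n') (fun _ _ => Nat.zero_le _)
        (Finset.mem_range.mpr (by omega))
    have e2 : ∑ n' ∈ Finset.range (n + 3), N₀ d' g' n' ≤ ∑ g' ∈ Finset.range (g + 1),
        ∑ n' ∈ Finset.range (n + 3), N₀ d' g' n' :=
      Finset.single_le_sum (f := fun g' => ∑ n' ∈ Finset.range (n + 3), N₀ d' g' n')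
        (fun _ _ => Nat.zero_le _) (Finset.mem_range.mpr (by omega))
    have e3 : ∑ g' ∈ Finset.range (g + 1), ∑ n' ∈ Finset.range (n + 3), N₀ d' g' n' ≤
        ∑ d' ∈ Finset.range d, ∑ g' ∈ Finset.range (g + 1),
          ∑ n' ∈ Finset.range (n + 3), N₀ d' g' n' :=
      Finset.single_le_sum (f := fun d' => ∑ g' ∈ Finset.range (g + 1),
          ∑ n' ∈ Finset.range (n + 3), N₀ d' g' n')
        (fun _ _ => Nat.zero_le _) (Finset.mem_range.mpr hd)
    omega
  refine ⟨2 * (B + cc d), ?_⟩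
  intro Y N h hN x hx h0
  obtain ⟨Z⟩ := strata g n hgn
  obtain ⟨k, hk⟩ := Z.exhaust d
  refine hk Y x hx (P.pull_j_eq_zero Z x ?_ ?_ k)
  · exact P.base_eq_zero Z.base hx h (by omega) h0
  · intro S W r κ κ' hκ
    exact P.contraction_eq hκ hB hB5 hx h hN h0

/-- injectivity without a parameter space -/
theorem injective (strata : ∀ g n, (g, n) ≠ (1, 0) → Nonempty (Stratification P g n))
    (d g n : ℕ) (hgn : (g, n) ≠ (1, 0)) :
    ∃ m₀ : ℕ, ∀ m : ℕ, m₀ ≤ m → ∀ x ∈ T.gr (P.M g n) d,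
      T.pull (P.F g (Nat.le_add_right n m)) x = 0 → x = 0 := by
  obtain ⟨N₀, hN⟩ := P.injAt strata d g n hgn
  refine ⟨N₀, ?_⟩
  intro m hm x hx h0
  have h1 := hN (𝟙_ C) (n + m) (Nat.le_add_right n m) (by omega)
    (T.pull (snd (𝟙_ C) (P.M g n)) x) (T.pull_mem _ _ _ hx) (by
      rw [T.pull_pull, whiskerLeft_snd, ← T.pull_pull, h0, map_zero])
  have h2 := congrArg (T.pull (lift (toUnit _) (𝟙 (P.M g n)))) h1
  rw [T.pull_pull, lift_snd, T.pull_id, map_zero] at h2
  exact h2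

end PrestableCurves

end Run7.h810
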