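import Pool.Agent.Run7.h810.Statement
import Pool.Agent.Run7.h810.Strata

open CategoryTheory MonoidalCategory CartesianMonoidalCategory

namespace Run7.h810

universe w v u

variable {C : Type u} [Category.{v} C] [CartesianMonoidalCategory C]

/-- the working form of a Chow theory -/
def chow (T : PrestableChow.ChowTheory.{w} C) : ChowTheory.{w} C where
  CH := T.CH
  gr := T.codim
  pull f := (T.pull f).toRatAlgHom
  pull_id := T.functorial.id
  pull_pull f g a := (T.functorial.comp f g a).symm
  pull_mem := T.functorial.codim
  A1 := T.A1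
  zero := T.zero
  one := T.one
  homotopy := T.homotopy
  BGm := T.BGm
  c := T.c
  c_mem := T.c_codim
  poly := T.poly

variable {T : PrestableChow.ChowTheory.{w} C}

/-- an additive map between rational vector spaces, as a linear map -/
noncomputable def linear {A B : Type w} [CommRing A] [CommRing B] [Algebra ℚ A] [Algebra ℚ B]
    (p : A →+ B) : A →ₗ[ℚ] B := p.toRatLinearMap

/-- the working form of the moduli stacks -/
noncomputable def curves (P : PrestableChow.PrestableCurves T) : PrestableCurves (chow T) where
  M := P.M
  Mbar := P.Mbar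
  F := P.F
  f := P.f
  perm := P.perm
  sep := P.sep
  loop := P.loop
  F_f := P.compatible.F_f
  sep_f := P.compatible.bubble_f
  sep_swap := P.compatible.bubble_swap
  lift_perm := P.stableLifts.perm
  lift_loop := P.stableLifts.loop
  lift_sep := P.stableLifts.sep
  psi := P.psi
  B₀ := P.smoothRational.B₀
  B₁ := P.smoothRational.B₁
  j₀ := P.smoothRational.j₀
  j₁ := P.smoothRational.j₁
  j₂ := P.smoothRational.j₂
  φ₀ := P.smoothRational.φ₀
  φ₁ := P.smoothRational.φ₁
  φ₀_j₀ := P.smoothRational.φ₀_j₀
  φ₁_j₁ := P.smoothRational.φ₁_j₁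
  φ₀_inj := P.smoothRational.φ₀_inj
  φ₁_inj := P.smoothRational.φ₁_inj
  psi_two := P.smoothRational.psi_two
  psi_one := P.smoothRational.psi_one
  ell g n := (P.blowUp g n).ell
  ell_c g n := (P.blowUp g n).ell_c
  blow g n := (P.blowUp g n).family
  blow_one g n := (P.blowUp g n).over_one
  blow_zero g n := (P.blowUp g n).over_zero
  dilaton g N h := by
    obtain ⟨π, V, i, h1, h2, h3⟩ := P.dilaton g N h
    refine ⟨π, V, i, h1, fun Y => ⟨h2 Y, ?_⟩⟩
    obtain ⟨p, hp⟩ := h3 Y
    exact ⟨linear p, hp⟩
  point i := by
    obtain ⟨pt, b, h1, h2, h3, h4⟩ := P.pointClass i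
    refine ⟨pt, b, h1, h2, ?_, ?_⟩
    · exact (map_pow (T.pull (P.F 0 (Nat.le_add_left 2 (i + 1)))) (P.psi 0 1) (i + 1)).symm.trans h3
    · intro Y
      obtain ⟨p, hp⟩ := h4 Y
      refine ⟨linear p, fun a => ?_⟩
      refine Eq.trans ?_ (hp a)
      refine congrArg p (congrArg (fun s => s * a) ?_)
      exact (map_pow (T.pull (snd Y (P.Mbar 0 (i + 3)) ≫ P.F 0 (Nat.le_add_left 2 (i + 1))))
        (P.psi 0 1) i).symm

variable {P : PrestableChow.PrestableCurves T}

lemma contraction_convert {S W : C} {r : S ⟶ W} {g n : ℕ} {κ : S ⟶ P.M g n} {κ' : W ⟶ P.M g n}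
    (h : PrestableChow.Contraction P.smoothRational r κ κ') : Contraction (curves P) r κ κ' := by
  cases h with
  | tail a b => exact Contraction.tail (P := curves P) (r := r) a b
  | leg a b σ => exact Contraction.leg (P := curves P) (r := r) a b σ
  | loop a b => exact Contraction.loop (P := curves P) (r := r) a b
  | bridge c₁ c₂ s σ => exact Contraction.bridge (P := curves P) (r := r) c₁ c₂ s σ

lemma edge_convert {S : C} {ε : T.CH S} (h : PrestableChow.IsEdgeClass P.smoothRational ε) :
    IsEdgeClass (T := chow T) (curves P) ε := by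
  cases h with
  | one X a e => exact IsEdgeClass.one (T := chow T) (P := curves P) X a e
  | two X a e => exact IsEdgeClass.two (T := chow T) (P := curves P) X a e

lemma base_convert {g n : ℕ} {U : C} {j : U ⟶ P.M g n}
    (h : PrestableChow.IsBase P.smoothRational U j) : IsBase (curves P) U j := by
  cases h with
  | stable h => exact IsBase.stable (P := curves P) h
  | zero => exact IsBase.zero (P := curves P)
  | one => exact IsBase.one (P := curves P)
  | two => exact IsBase.two (P := curves P)

/-- the working form of a stratification -/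
noncomputable def strat {g n : ℕ} (Z : PrestableChow.Stratification P.smoothRational g n) :
    Stratification (curves P) g n where
  U := Z.U
  j := Z.j
  i := Z.i
  i_j := Z.i_j
  base := base_convert Z.base
  exhaust := Z.exhaust
  S k := (Z.stratum k).S
  ι k := (Z.stratum k).ι
  push k Y := linear ((Z.stratum k).localisation Y).choose
  exact k Y := ((Z.stratum k).localisation Y).choose_spec.1
  euler k := (Z.stratum k).e
  self k Y := ((Z.stratum k).localisation Y).choose_spec.2
  S' k := (Z.stratum k).S'
  q k := (Z.stratum k).q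
  q_inj k := (Z.stratum k).q_injective
  edges k := ⟨(Z.stratum k).nodes, (Z.stratum k).nodes_prod,
    fun ε hε => edge_convert ((Z.stratum k).nodes_edge ε hε)⟩
  contract k := ⟨(Z.stratum k).W, (Z.stratum k).r, (Z.stratum k).c, by
    have h := contraction_convert (Z.stratum k).contraction
    rw [Z.i_j] at h
    exact h⟩

end Run7.h810
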