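import Pool.Agent.Run7.h810.Theory

open CategoryTheory MonoidalCategory CartesianMonoidalCategory

namespace Run7.h810

universe w v u

/-- The moduli stacks of prestable and of stable curves, with their forgetful and gluing morphisms,
inside a category with a Chow theory.

Intended model: `M g n` is the stack `𝔐_{g,n}` of prestable curves (for `(g,n) = (1,0)`, where the
Chow theory is not defined, nothing is used and `M 1 0` may be replaced by the final object),
`Mbar g n` is the open substack of stable curves (empty if `2g-2+n ≤ 0`). -/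
structure PrestableCurves {C : Type u} [Category.{v} C] [CartesianMonoidalCategory C]
    (T : ChowTheory.{w} C) where
  /-- the stack of prestable curves of genus `g` with `n` markings -/
  M : ℕ → ℕ → C
  /-- the stack of stable curves of genus `g` with `n` markings -/
  Mbar : ℕ → ℕ → C
  /-- keep the curve and its first `n` markings; no component is contracted -/
  F : ∀ (g : ℕ) {n N : ℕ}, n ≤ N → (Mbar g N ⟶ M g n)
  /-- keep the curve and forget the last marking; no component is contracted -/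
  f : ∀ g n : ℕ, M g (n + 1) ⟶ M g n
  /-- permute the markings -/
  perm : ∀ (g : ℕ) {n : ℕ}, Equiv.Perm (Fin n) → (M g n ⟶ M g n)
  /-- glue the last marking of the first curve to the last marking of the second curve -/
  sep : ∀ g₁ g₂ a b : ℕ, M g₁ (a + 1) ⊗ M g₂ (b + 1) ⟶ M (g₁ + g₂) (a + b)
  /-- glue the last two markings of a curve to each other -/
  loop : ∀ g n : ℕ, M g (n + 2) ⟶ M (g + 1) n
  F_f : ∀ (g : ℕ) {n N : ℕ} (h : n + 1 ≤ N), F g h ≫ f g n = F g (Nat.le_of_succ_le h)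
  sep_f : ∀ g n : ℕ, (sep g 0 n 1 : M g (n + 1) ⊗ M 0 2 ⟶ M g (n + 1)) ≫ f g n =
    (M g (n + 1) ◁ (perm 0 (Equiv.swap 0 1) ≫ f 0 1)) ≫
      (sep g 0 n 0 : M g (n + 1) ⊗ M 0 1 ⟶ M g n)
  sep_swap : (sep 0 0 1 1 : M 0 2 ⊗ M 0 2 ⟶ M 0 2) ≫ perm 0 (Equiv.swap 0 1) =
    lift (snd _ _) (fst _ _) ≫ (sep 0 0 1 1 : M 0 2 ⊗ M 0 2 ⟶ M 0 2)
  /-- permutations of the first markings act on stable curves -/
  lift_perm : ∀ (g : ℕ) {n N : ℕ} (h : n ≤ N) (σ : Equiv.Perm (Fin n)),
    ∃ t : Mbar g N ⟶ Mbar g N, t ≫ F g h = F g h ≫ perm g σ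
  /-- gluing two markings of a stable curve gives a stable curve -/
  lift_loop : ∀ (g : ℕ) {n N : ℕ} (h : n ≤ N),
    ∃ t : Mbar g (N + 2) ⟶ Mbar (g + 1) N,
      t ≫ F (g + 1) h = F g (Nat.add_le_add_right h 2) ≫ loop g n
  /-- gluing two stable curves gives a stable curve -/
  lift_sep : ∀ (g₁ g₂ : ℕ) {a b A B : ℕ} (ha : a ≤ A) (hb : b ≤ B),
    ∃ t : Mbar g₁ (A + 1) ⊗ Mbar g₂ (B + 1) ⟶ Mbar (g₁ + g₂) (A + B),
      t ≫ F (g₁ + g₂) (Nat.add_le_add ha hb) =
        (F g₁ (Nat.succ_le_succ ha) ⊗ₘ F g₂ (Nat.succ_le_succ hb)) ≫ sep g₁ g₂ a b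
  /-- the class `ψ` at the last marking -/
  psi : ∀ g n : ℕ, T.CH (M g (n + 1))
  /-- the smooth rational curves with no marking, with one marking and with two markings: the
  classifying stacks of `PGL₂`, of its Borel subgroup and of its maximal torus `𝔾ₘ` -/
  B₀ : C
  B₁ : C
  j₀ : B₀ ⟶ M 0 0
  j₁ : B₁ ⟶ M 0 1
  j₂ : T.BGm ⟶ M 0 2
  φ₀ : B₁ ⟶ B₀
  φ₁ : T.BGm ⟶ B₁
  φ₀_j₀ : φ₀ ≫ j₀ = j₁ ≫ f 0 0
  /-- here the first marking is forgotten -/
  φ₁_j₁ : φ₁ ≫ j₁ = j₂ ≫ perm 0 (Equiv.swap 0 1) ≫ f 0 1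
  φ₀_inj : ∀ Y : C, Function.Injective (T.pull (Y ◁ φ₀))
  φ₁_inj : ∀ Y : C, Function.Injective (T.pull (Y ◁ φ₁))
  psi_two : T.pull j₂ (psi 0 1) = T.c
  psi_one : T.pull (φ₁ ≫ j₁) (psi 0 0) = T.c
  /-- the classifying morphism of the projective bundle `ℙ(T ⊕ 𝒪)` with its sections `0` and `∞`,
  where `T` is the tangent line at the last marking -/
  ell : ∀ g n : ℕ, M g (n + 1) ⟶ T.BGm
  ell_c : ∀ g n : ℕ, T.pull (ell g n) T.c = -psi g n
  /-- the blow-up of `curve × 𝔸¹` in the last marking over `0`, with the strict transform of the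
  last marking, as a family of prestable curves -/
  blow : ∀ g n : ℕ, M g (n + 1) ⊗ T.A1 ⟶ M g (n + 1)
  blow_one : ∀ g n : ℕ, lift (𝟙 _) (toUnit _ ≫ T.one) ≫ blow g n = 𝟙 _
  blow_zero : ∀ g n : ℕ, lift (𝟙 _) (toUnit _ ≫ T.zero) ≫ blow g n =
    lift (𝟙 _) (ell g n ≫ j₂) ≫ (sep g 0 n 1 : M g (n + 1) ⊗ M 0 2 ⟶ M g (n + 1))
  /-- The forgetful morphism `π` of stable curves (with contraction), the open locus `V` where
  nothing is contracted, the vanishing of `ψ` at the last marking on its complement, and the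
  dilaton equation `π_*(ψ · π^* b) = (2g-2+N) b`. -/
  dilaton : ∀ g N : ℕ, 2 < 2 * g + N → ∃ (π : Mbar g (N + 1) ⟶ Mbar g N) (V : C)
    (i : V ⟶ Mbar g (N + 1)),
    (∀ (n : ℕ) (h : n ≤ N), i ≫ F g (Nat.le_succ_of_le h) = i ≫ π ≫ F g h) ∧
    ∀ Y : C, (∀ a : T.CH (Y ⊗ Mbar g (N + 1)), T.pull (Y ◁ i) a = 0 →
        T.pull (snd Y _ ≫ F g (Nat.le_refl (N + 1))) (psi g N) * a = 0) ∧
      ∃ p : T.CH (Y ⊗ Mbar g (N + 1)) →ₗ[ℚ] T.CH (Y ⊗ Mbar g N), ∀ b,
        p (T.pull (snd Y _ ≫ F g (Nat.le_refl (N + 1))) (psi g N) * T.pull (Y ◁ π) b) =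
          (2 * (g : ℚ) - 2 + N) • b
  /-- On the `i`-dimensional `M̄_{0,i+3}` the class `ψ` at the second marking satisfies
  `ψ^(i+1) = 0`, and `ψ^i` is the class of a point in the interior. -/
  point : ∀ i : ℕ, ∃ (pt : 𝟙_ C ⟶ Mbar 0 (i + 3)) (b : 𝟙_ C ⟶ T.BGm),
    pt ≫ F 0 (Nat.le_add_left 2 (i + 1)) = b ≫ j₂ ∧ T.pull b T.c = 0 ∧
    T.pull (F 0 (Nat.le_add_left 2 (i + 1))) (psi 0 1) ^ (i + 1) = 0 ∧
    ∀ Y : C, ∃ I : T.CH (Y ⊗ Mbar 0 (i + 3)) →ₗ[ℚ] T.CH Y, ∀ a,
      I (T.pull (snd Y _ ≫ F 0 (Nat.le_add_left 2 (i + 1))) (psi 0 1) ^ i * a) =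
        T.pull (lift (𝟙 Y) (toUnit Y ≫ pt)) a

variable {C : Type u} [Category.{v} C] [CartesianMonoidalCategory C] {T : ChowTheory.{w} C}

/-- `Contraction P r κ κ'`: the family of curves `κ` over `S` is obtained from the family `κ'` over
`W`, pulled back along `r : S ⟶ W`, by attaching or inserting a smooth rational component `R` that
has at most two special points. -/
inductive Contraction (P : PrestableCurves T) {S W : C} (r : S ⟶ W) :
    ∀ {g n : ℕ}, (S ⟶ P.M g n) → (W ⟶ P.M g n) → Prop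
  /-- `R` has one special point, a node -/
  | tail {g n : ℕ} (a : W ⟶ P.M g (n + 1)) (b : S ⟶ P.B₁) :
      Contraction P r (g := g) (n := n) (lift (r ≫ a) (b ≫ P.j₁) ≫ P.sep g 0 n 0) (a ≫ P.f g n)
  /-- `R` has two special points, a node and a marking -/
  | leg {g n : ℕ} (a : W ⟶ P.M g (n + 1)) (b : S ⟶ T.BGm) (σ : Equiv.Perm (Fin (n + 1))) :
      Contraction P r (g := g) (n := n + 1)
        (lift (r ≫ a) (b ≫ P.j₂) ≫ (P.sep g 0 n 1 : _ ⟶ P.M g (n + 1)) ≫ P.perm g σ)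
        (a ≫ P.perm g σ)
  /-- `R` has two special points, both nodes, and the rest of the curve is connected -/
  | loop {g n : ℕ} (a : W ⟶ P.M g (n + 2)) (b : S ⟶ T.BGm) :
      Contraction P r (g := g + 1) (n := n)
        (lift (r ≫ a) (b ≫ P.j₂) ≫ (P.sep g 0 (n + 1) 1 : _ ⟶ P.M g (n + 2)) ≫ P.loop g n)
        (a ≫ P.loop g n)
  /-- `R` has two special points, both nodes, and the rest of the curve is disconnected -/
  | bridge {g₁ g₂ a b : ℕ} (c₁ : W ⟶ P.M g₁ (a + 1)) (c₂ : W ⟶ P.M g₂ (b + 1)) (s : S ⟶ T.BGm)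
      (σ : Equiv.Perm (Fin (a + b))) :
      Contraction P r (g := g₁ + g₂) (n := a + b)
        (lift (lift (r ≫ c₁) (s ≫ P.j₂) ≫ (P.sep g₁ 0 a 1 : _ ⟶ P.M g₁ (a + 1))) (r ≫ c₂) ≫
          P.sep g₁ g₂ a b ≫ P.perm _ σ)
        (lift c₁ c₂ ≫ P.sep g₁ g₂ a b ≫ P.perm _ σ)

/-- The Euler class `-ψ - ψ'` of the smoothing of a node one of whose branches lies on a smooth
rational component with at most two special points, as a class on the product `X × B₁` or
`X × B𝔾ₘ` over which that component varies. -/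
inductive IsEdgeClass (P : PrestableCurves T) {S : C} : T.CH S → Prop
  | one (X : C) (a : T.CH X) (e : S ≅ X ⊗ P.B₁) : IsEdgeClass P
      (T.pull e.hom (T.pull (fst X _) a - T.pull (snd X _ ≫ P.j₁) (P.psi 0 0)))
  | two (X : C) (a : T.CH X) (e : S ≅ X ⊗ T.BGm) : IsEdgeClass P
      (T.pull e.hom (T.pull (fst X _) a - T.pull (snd X _) T.c))

/-- The open part with which the stratification of `𝔐_{g,n}` starts: the stable curves, and for
`g = 0`, `n ≤ 2` the smooth curves. -/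
inductive IsBase (P : PrestableCurves T) : ∀ {g n : ℕ} (U : C), (U ⟶ P.M g n) → Prop
  | stable {g n : ℕ} (h : 2 < 2 * g + n) : IsBase P (P.Mbar g n) (P.F g (Nat.le_refl n))
  | zero : IsBase P P.B₀ P.j₀
  | one : IsBase P P.B₁ P.j₁
  | two : IsBase P T.BGm P.j₂

/-- A filtration of `𝔐_{g,n}` by open substacks `U k`, each obtained from the previous one by adding
one stratum `S k`: the curves with a prescribed dual graph, in which the maximal connected unions of
components with at least three special points or positive genus count as one vertex. -/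
structure Stratification (P : PrestableCurves T) (g n : ℕ) where
  /-- the open substacks -/
  U : ℕ → C
  j : ∀ k, U k ⟶ P.M g n
  i : ∀ k, U k ⟶ U (k + 1)
  i_j : ∀ k, i k ≫ j (k + 1) = j k
  base : IsBase P (U 0) (j 0)
  /-- the codimension of the complement of `U k` tends to infinity -/
  exhaust : ∀ d, ∃ k, ∀ (Y : C) (x : T.CH (Y ⊗ P.M g n)), x ∈ T.gr _ d →
    T.pull (Y ◁ j k) x = 0 → x = 0
  /-- the closed stratum, its inclusion, the push-forward and the localisation sequence -/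
  S : ℕ → C
  ι : ∀ k, S k ⟶ U (k + 1)
  push : ∀ (k : ℕ) (Y : C), T.CH (Y ⊗ S k) →ₗ[ℚ] T.CH (Y ⊗ U (k + 1))
  exact : ∀ (k : ℕ) (Y : C) (x : T.CH (Y ⊗ U (k + 1))), T.pull (Y ◁ i k) x = 0 →
    ∃ s, push k Y s = x
  /-- the top Chern class of the normal bundle, and the self-intersection formula -/
  euler : ∀ k, T.CH (S k)
  self : ∀ (k : ℕ) (Y : C) (s : T.CH (Y ⊗ S k)),
    T.pull (Y ◁ ι k) (push k Y s) = T.pull (snd Y _) (euler k) * s
  /-- the finite étale cover of the stratum on which the nodes and their branches are ordered -/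
  S' : ℕ → C
  q : ∀ k, S' k ⟶ S k
  q_inj : ∀ (k : ℕ) (Y : C), Function.Injective (T.pull (Y ◁ q k))
  /-- on the cover the normal bundle is the sum of the smoothings of the nodes -/
  edges : ∀ k, ∃ l : List (T.CH (S' k)), T.pull (q k) (euler k) = l.prod ∧
    ∀ ε ∈ l, IsEdgeClass P ε
  /-- one of the rational components can be contracted, and the result lies in `U k` -/
  contract : ∀ k, ∃ (W : C) (r : S' k ⟶ W) (c : W ⟶ U k),
    Contraction P r (q k ≫ ι k ≫ j (k + 1)) (c ≫ j k)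

end Run7.h810
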