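import Pool.Agent.Run7.h810.Bubble

open CategoryTheory MonoidalCategory CartesianMonoidalCategory

namespace Run7.h810

universe w v u

variable {C : Type u} [Category.{v} C] [CartesianMonoidalCategory C] {T : ChowTheory.{w} C}

namespace PrestableCurves

variable (P : PrestableCurves T)

/-- injectivity in codimension `d` with `N ≥ N₀` markings, with a parameter space -/
def InjAt (g n d N₀ : ℕ) : Prop :=
  ∀ (Y : C) (N : ℕ) (h : n ≤ N), N₀ ≤ N → ∀ x ∈ T.gr (Y ⊗ P.M g n) d,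
    T.pull (Y ◁ P.F g h) x = 0 → x = 0

lemma InjAt.mono {g n d N₀ N₁ : ℕ} (h : P.InjAt g n d N₀) (hN : N₀ ≤ N₁) : P.InjAt g n d N₁ :=
  fun Y N hn h' x hx h0 => h Y N hn (hN.trans h') x hx h0

lemma zc_mem {Y : C} {g n d : ℕ} {x : T.CH (Y ⊗ P.M g (n + 1))} (hx : x ∈ T.gr _ d) (j : ℕ) :
    (j ≤ d → (P.zc x).coeff j ∈ T.gr _ (d - j)) ∧ (d < j → (P.zc x).coeff j = 0) :=
  T.co_mem (T.pull_mem _ _ _ hx) j

/-- the higher bubble coefficients vanish -/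
lemma zc_coeff_eq_zero {d g n B : ℕ} (hB : ∀ d' < d, P.InjAt g (n + 1) d' B)
    (h1 : n + 1 ≤ B) (h3 : 3 ≤ B) {Y : C} {x : T.CH (Y ⊗ P.M g (n + 1))} (hx : x ∈ T.gr _ d)
    {N : ℕ} (h : n + 1 ≤ N) (hN : B + cc d ≤ N) (h0 : T.pull (Y ◁ P.F g h) x = 0)
    (j : ℕ) (hj : 1 ≤ j) : (P.zc x).coeff j = 0 := by
  rcases Nat.lt_or_ge d j with hd | hd
  · exact (P.zc_mem hx j).2 hd
  · refine hB (d - j) (by omega) Y B h1 (le_refl _) _ ((P.zc_mem hx j).1 hd) ?_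
    refine P.coeff_dies (P.gProp j) x h1 h ?_ (by omega) h0
    have : cc j ≤ cc d := by unfold cc; exact Nat.pow_le_pow_left (by omega) 2
    omega

/-- vanishing on `B𝔾ₘ` -/
lemma pull_j₂_eq_zero {d : ℕ} {Y : C} {x : T.CH (Y ⊗ P.M 0 2)} (hx : x ∈ T.gr _ d)
    {N : ℕ} (h : 2 ≤ N) (hN : 2 + cc d ≤ N) (h0 : T.pull (Y ◁ P.F 0 h) x = 0) :
    T.pull (Y ◁ P.j₂) x = 0 := by
  apply (T.co Y).injective
  rw [map_zero]
  ext i
  rw [Polynomial.coeff_zero]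
  rcases Nat.lt_or_ge d i with hd | hd
  · exact (T.co_mem (T.pull_mem _ _ _ hx) i).2 hd
  · refine P.gProp i Y x N h ?_ h0
    have : cc i ≤ cc d := by unfold cc; exact Nat.pow_le_pow_left (by omega) 2
    omega

lemma pull_j₁_eq_zero {d : ℕ} {Y : C} {x : T.CH (Y ⊗ P.M 0 1)} (hx : x ∈ T.gr _ d)
    {N : ℕ} (h : 1 ≤ N) (hN : 2 + cc d ≤ N) (h0 : T.pull (Y ◁ P.F 0 h) x = 0) :
    T.pull (Y ◁ P.j₁) x = 0 := by
  apply P.φ₁_inj
  rw [map_zero, T.pull_pull, ← MonoidalCategory.whiskerLeft_comp, P.φ₁_j₁,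
    MonoidalCategory.whiskerLeft_comp, ← T.pull_pull]
  have h2 : 2 ≤ N := by omega
  refine P.pull_j₂_eq_zero (T.pull_mem _ _ _ hx) h2 hN ?_
  obtain ⟨t, ht⟩ := P.lift_perm 0 h2 (Equiv.swap 0 1)
  rw [T.pull_pull, ← MonoidalCategory.whiskerLeft_comp, ← Category.assoc, ← ht, Category.assoc,
    P.F_f, MonoidalCategory.whiskerLeft_comp, ← T.pull_pull, h0, map_zero]

lemma pull_j₀_eq_zero {d : ℕ} {Y : C} {x : T.CH (Y ⊗ P.M 0 0)} (hx : x ∈ T.gr _ d)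
    {N : ℕ} (h : 0 ≤ N) (hN : 2 + cc d ≤ N) (h0 : T.pull (Y ◁ P.F 0 h) x = 0) :
    T.pull (Y ◁ P.j₀) x = 0 := by
  apply P.φ₀_inj
  rw [map_zero, T.pull_pull, ← MonoidalCategory.whiskerLeft_comp, P.φ₀_j₀,
    MonoidalCategory.whiskerLeft_comp, ← T.pull_pull]
  have h2 : 1 ≤ N := by omega
  refine P.pull_j₁_eq_zero (T.pull_mem _ _ _ hx) h2 hN ?_
  rw [T.pull_pull, ← MonoidalCategory.whiskerLeft_comp, P.F_f, h0]

lemma base_eq_zero {g n d : ℕ} {U : C} {j : U ⟶ P.M g n} (hb : IsBase P U j) {Y : C}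
    {x : T.CH (Y ⊗ P.M g n)} (hx : x ∈ T.gr _ d) {N : ℕ} (h : n ≤ N) (hN : 2 + cc d ≤ N)
    (h0 : T.pull (Y ◁ P.F g h) x = 0) : T.pull (Y ◁ j) x = 0 := by
  cases hb with
  | stable hs => exact P.mono (le_refl _) h hs x h0
  | zero => exact P.pull_j₀_eq_zero hx h hN h0
  | one => exact P.pull_j₁_eq_zero hx h hN h0
  | two => exact P.pull_j₂_eq_zero hx h hN h0

/-- attach a smooth rational component with one special point at the last marking -/
def tailMap (Y : C) (g n : ℕ) : (Y ⊗ P.M g (n + 1)) ⊗ P.B₁ ⟶ Y ⊗ P.M g n :=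
  lift (fst _ _ ≫ fst _ _) (lift (fst _ _ ≫ snd _ _) (snd _ _ ≫ P.j₁) ≫ P.sep g 0 n 0)

lemma tailMap_bubMap (Y : C) (g n : ℕ) :
    (Y ⊗ P.M g (n + 1)) ◁ P.φ₁ ≫ P.tailMap Y g n = P.bubMap Y g n ≫ (Y ◁ P.f g n) := by
  apply CartesianMonoidalCategory.hom_ext
  · simp [tailMap, bubMap]
  · simp only [tailMap, bubMap, comp_lift, comp_lift_assoc, lift_snd, whiskerLeft_snd,
      whiskerLeft_snd_assoc, whiskerLeft_fst_assoc, lift_snd_assoc, Category.assoc]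
    have e := congrArg (fun s => lift (fst (Y ⊗ P.M g (n + 1)) T.BGm ≫ snd _ _)
      (snd _ _ ≫ P.j₂) ≫ s) (P.sep_f g n)
    simp only [lift_whiskerLeft_assoc, Category.assoc] at e
    rw [P.φ₁_j₁]
    exact e.symm

lemma pull_tailMap {d g n B : ℕ} (hB : ∀ d' < d, P.InjAt g (n + 1) d' B)
    (h1 : n + 1 ≤ B) (h3 : 3 ≤ B) {Y : C} {x : T.CH (Y ⊗ P.M g n)} (hx : x ∈ T.gr _ d)
    {N : ℕ} (h : n ≤ N) (hN : B + cc d ≤ N) (h0 : T.pull (Y ◁ P.F g h) x = 0) :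
    T.pull (P.tailMap Y g n) x = T.pull (fst _ _ ≫ (Y ◁ P.f g n)) x := by
  have h4 : n + 1 ≤ N := by omega
  have h5 : T.pull (Y ◁ P.F g h4) (T.pull (Y ◁ P.f g n) x) = 0 := by
    rw [T.pull_pull, ← MonoidalCategory.whiskerLeft_comp, P.F_f, h0]
  have h6 := P.pull_bubMap_of_coeff (T.pull (Y ◁ P.f g n) x)
    (P.zc_coeff_eq_zero hB h1 h3 (T.pull_mem _ _ _ hx) h4 hN h5)
  rw [T.pull_pull, ← P.tailMap_bubMap, ← T.pull_pull] at h6
  apply P.φ₁_inj
  rw [h6, T.pull_pull, T.pull_pull, whiskerLeft_fst_assoc]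

lemma pull_bubMap {d g n B : ℕ} (hB : ∀ d' < d, P.InjAt g (n + 1) d' B)
    (h1 : n + 1 ≤ B) (h3 : 3 ≤ B) {Y : C} {x : T.CH (Y ⊗ P.M g (n + 1))} (hx : x ∈ T.gr _ d)
    {N : ℕ} (h : n + 1 ≤ N) (hN : B + cc d ≤ N) (h0 : T.pull (Y ◁ P.F g h) x = 0) :
    T.pull (P.bubMap Y g n) x = T.pull (fst _ _) x :=
  P.pull_bubMap_of_coeff x (P.zc_coeff_eq_zero hB h1 h3 hx h hN h0)

/-- the bubble at one side of a separating node -/
lemma pull_bubMap_bridge {d g₁ g₂ a b B : ℕ} (hB₁ : ∀ d' < d, P.InjAt g₁ (a + 1) d' B)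
    (hB₂ : ∀ d' < d, P.InjAt g₂ (b + 1) d' B) (h1 : a + 1 ≤ B) (h2 : b + 1 ≤ B) (h3 : 3 ≤ B)
    (σ : Equiv.Perm (Fin (a + b))) {Y : C}
    {x : T.CH (Y ⊗ P.M (g₁ + g₂) (a + b))} (hx : x ∈ T.gr _ d)
    {N : ℕ} (h : a + b ≤ N) (hN : 2 * (B + cc d) ≤ N) (h0 : T.pull (Y ◁ P.F _ h) x = 0)
    (x' : T.CH ((Y ⊗ P.M g₂ (b + 1)) ⊗ P.M g₁ (a + 1)))
    (hx' : x' = T.pull (lift (fst _ _ ≫ fst _ _) (lift (snd _ _) (fst _ _ ≫ snd _ _) ≫
      P.sep g₁ g₂ a b ≫ P.perm _ σ)) x) :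
    T.pull (P.bubMap (Y ⊗ P.M g₂ (b + 1)) g₁ a) x' = T.pull (fst _ _) x' := by
  have hxd : x' ∈ T.gr _ d := by rw [hx']; exact T.pull_mem _ _ _ hx
  apply P.pull_bubMap_of_coeff
  intro j hj
  rcases Nat.lt_or_ge d j with hd | hd
  · exact (P.zc_mem hxd j).2 hd
  have hcc : 0 < cc d := by unfold cc; positivity
  obtain ⟨A, hA⟩ : ∃ A, B + cc d = A + 1 := ⟨B + cc d - 1, by omega⟩
  have haA : a ≤ A := by omega
  have hbA : b ≤ A := by omega
  -- replace `𝔐_{g₂,b+1}` by a stack of stable curves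
  set z := (P.zc x').coeff j with hz
  have hzd : z ∈ T.gr _ (d - j) := (P.zc_mem hxd j).1 hd
  have hz1 : T.pull ((Y ◁ P.F g₂ (Nat.succ_le_succ hbA)) ▷ P.M g₁ (a + 1)) z = 0 := by
    have e1 : T.pull ((Y ◁ P.F g₂ (Nat.succ_le_succ hbA)) ▷ P.M g₁ (a + 1)) z =
        (P.zc (T.pull ((Y ◁ P.F g₂ (Nat.succ_le_succ hbA)) ▷ P.M g₁ (a + 1)) x')).coeff j := by
      rw [P.zc_pull, Polynomial.coeff_map]
      rfl
    rw [e1]
    refine P.zc_coeff_eq_zero hB₁ h1 h3 (T.pull_mem _ _ _ hxd) (Nat.succ_le_succ haA)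
      (by omega) ?_ j hj
    obtain ⟨t, ht⟩ := P.lift_sep g₁ g₂ haA hbA
    have h4 : a + b ≤ A + A := Nat.add_le_add haA hbA
    obtain ⟨t', ht'⟩ := P.lift_perm (g₁ + g₂) h4 σ
    have h5 : T.pull (Y ◁ P.F _ h4) x = 0 := P.mono h4 (by omega) (by omega) x h0
    rw [hx', T.pull_pull, T.pull_pull]
    have e2 : ((Y ⊗ P.Mbar g₂ (A + 1)) ◁ P.F g₁ (Nat.succ_le_succ haA) ≫
        (Y ◁ P.F g₂ (Nat.succ_le_succ hbA)) ▷ P.M g₁ (a + 1)) ≫
        lift (fst _ _ ≫ fst _ _) (lift (snd _ _) (fst _ _ ≫ snd _ _) ≫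
          P.sep g₁ g₂ a b ≫ P.perm _ σ) =
        lift (fst _ _ ≫ fst _ _) (lift (snd _ _) (fst _ _ ≫ snd _ _) ≫ t ≫ t') ≫
          (Y ◁ P.F _ h4) := by
      apply CartesianMonoidalCategory.hom_ext
      · simp
      · have ht2 := congrArg (fun s => lift (snd (Y ⊗ P.Mbar g₂ (A + 1)) (P.Mbar g₁ (A + 1)))
          (fst _ _ ≫ snd _ _) ≫ s ≫ P.perm _ σ) ht
        simp only [lift_map_assoc, Category.assoc] at ht2
        simp only [comp_lift, comp_lift_assoc, lift_snd, whiskerLeft_snd, whiskerRight_snd,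
          whiskerRight_fst_assoc, whiskerLeft_fst_assoc, Category.assoc, lift_snd_assoc]
        rw [ht', ← ht2]
    rw [e2, ← T.pull_pull, h5, map_zero]
  -- transpose the two factors
  have hz2 : T.pull (lift (lift (fst _ _ ≫ fst _ _) (snd _ _)) (fst _ _ ≫ snd _ _) :
      (Y ⊗ P.M g₁ (a + 1)) ⊗ P.M g₂ (b + 1) ⟶ _) z = 0 := by
    refine hB₂ (d - j) (by omega) _ (A + 1) (Nat.succ_le_succ hbA) (by omega) _
      (T.pull_mem _ _ _ hzd) ?_
    rw [T.pull_pull]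
    have e3 : (Y ⊗ P.M g₁ (a + 1)) ◁ P.F g₂ (Nat.succ_le_succ hbA) ≫
        (lift (lift (fst _ _ ≫ fst _ _) (snd _ _)) (fst _ _ ≫ snd _ _) :
          (Y ⊗ P.M g₁ (a + 1)) ⊗ P.M g₂ (b + 1) ⟶ (Y ⊗ P.M g₂ (b + 1)) ⊗ P.M g₁ (a + 1)) =
        (lift (lift (fst _ _ ≫ fst _ _) (snd _ _)) (fst _ _ ≫ snd _ _)) ≫
          (Y ◁ P.F g₂ (Nat.succ_le_succ hbA)) ▷ P.M g₁ (a + 1) := by
      apply CartesianMonoidalCategory.hom_ext
      · apply CartesianMonoidalCategory.hom_ext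
        · simp
        · simp
      · simp
    rw [e3, ← T.pull_pull, hz1, map_zero]
  have hz3 := congrArg (T.pull (lift (lift (fst _ _ ≫ fst _ _) (snd _ _)) (fst _ _ ≫ snd _ _) :
      (Y ⊗ P.M g₂ (b + 1)) ⊗ P.M g₁ (a + 1) ⟶ (Y ⊗ P.M g₁ (a + 1)) ⊗ P.M g₂ (b + 1))) hz2
  rw [T.pull_pull, map_zero] at hz3
  rw [← hz3]
  refine (T.pull_id _ z).symm.trans ?_
  congr 2
  apply CartesianMonoidalCategory.hom_ext
  · apply CartesianMonoidalCategory.hom_ext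
    · simp
    · simp
  · simp

/-- contracting a component does not change the class -/
lemma contraction_eq {S W : C} {r : S ⟶ W} {g n : ℕ} {κ : S ⟶ P.M g n} {κ' : W ⟶ P.M g n}
    (hκ : Contraction P r κ κ') {d B : ℕ}
    (hB : ∀ d' < d, ∀ g' n', g' ≤ g → n' ≤ n + 2 → (g', n') ≠ (1, 0) → P.InjAt g' n' d' B)
    (h5 : n + 5 ≤ B) {Y : C} {x : T.CH (Y ⊗ P.M g n)} (hx : x ∈ T.gr _ d)
    {N : ℕ} (h : n ≤ N) (hN : 2 * (B + cc d) ≤ N) (h0 : T.pull (Y ◁ P.F g h) x = 0) :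
    T.pull (Y ◁ κ) x = T.pull (Y ◁ (r ≫ κ')) x := by
  cases hκ with
  | tail a b =>
    have h1 := P.pull_tailMap (fun d' hd => hB d' hd g (n + 1) le_rfl (by omega) (by simp))
      (by omega) (by omega) hx h (by omega) h0
    have e : Y ◁ (lift (r ≫ a) (b ≫ P.j₁) ≫ (P.sep g 0 n 0 : _ ⟶ P.M g n)) =
        lift (lift (fst Y S) (snd Y S ≫ r ≫ a)) (snd Y S ≫ b) ≫ P.tailMap Y g n := by
      apply CartesianMonoidalCategory.hom_ext
      · simp [tailMap]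
      · simp only [tailMap, comp_lift, comp_lift_assoc, lift_snd, whiskerLeft_snd, lift_fst_assoc,
          lift_snd_assoc, Category.assoc]
    have h2 := congrArg (T.pull (lift (lift (fst Y S) (snd Y S ≫ r ≫ a)) (snd Y S ≫ b))) h1
    rw [T.pull_pull, T.pull_pull] at h2
    refine (congrArg (fun s => T.pull s x) e).trans (h2.trans ?_)
    congr 2
    apply CartesianMonoidalCategory.hom_ext
    · simp
    · simp
  | @leg g n a b σ =>
    obtain ⟨t, ht⟩ := P.lift_perm g h σ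
    have h1 := P.pull_bubMap (fun d' hd => hB d' hd g (n + 1) le_rfl (by omega) (by simp))
      (by omega) (by omega) (T.pull_mem (Y ◁ P.perm g σ) _ _ hx) h (by omega)
      (by rw [T.pull_pull, ← MonoidalCategory.whiskerLeft_comp, ← ht,
            MonoidalCategory.whiskerLeft_comp, ← T.pull_pull, h0, map_zero])
    have e : Y ◁ (lift (r ≫ a) (b ≫ P.j₂) ≫ (P.sep g 0 n 1 : _ ⟶ P.M g (n + 1)) ≫ P.perm g σ) =
        lift (lift (fst Y S) (snd Y S ≫ r ≫ a)) (snd Y S ≫ b) ≫ P.bubMap Y g n ≫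
          (Y ◁ P.perm g σ) := by
      apply CartesianMonoidalCategory.hom_ext
      · simp [bubMap]
      · simp only [bubMap, comp_lift_assoc, lift_snd, whiskerLeft_snd, lift_fst_assoc,
          lift_snd_assoc, Category.assoc]
    have h2 := congrArg (T.pull (lift (lift (fst Y S) (snd Y S ≫ r ≫ a)) (snd Y S ≫ b))) h1
    rw [T.pull_pull, T.pull_pull, T.pull_pull, T.pull_pull] at h2
    refine (congrArg (fun s => T.pull s x) e).trans (Eq.trans ?_ (h2.trans ?_))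
    · rw [Category.assoc]
    · congr 2
      apply CartesianMonoidalCategory.hom_ext
      · simp
      · simp
  | @loop g n a b =>
    obtain ⟨t, ht⟩ := P.lift_loop g h
    have h1 := P.pull_bubMap (n := n + 1)
      (fun d' hd => hB d' hd g (n + 2) (by omega) (by omega) (by simp))
      (by omega) (by omega) (T.pull_mem (Y ◁ P.loop g n) _ _ hx) (Nat.add_le_add_right h 2)
      (by omega)
      (by rw [T.pull_pull, ← MonoidalCategory.whiskerLeft_comp, ← ht,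
            MonoidalCategory.whiskerLeft_comp, ← T.pull_pull, h0, map_zero])
    have e : Y ◁ (lift (r ≫ a) (b ≫ P.j₂) ≫ (P.sep g 0 (n + 1) 1 : _ ⟶ P.M g (n + 2)) ≫
        P.loop g n) =
        lift (lift (fst Y S) (snd Y S ≫ r ≫ a)) (snd Y S ≫ b) ≫ P.bubMap Y g (n + 1) ≫
          (Y ◁ P.loop g n) := by
      apply CartesianMonoidalCategory.hom_ext
      · simp [bubMap]
      · simp only [bubMap, comp_lift_assoc, lift_snd, whiskerLeft_snd, lift_fst_assoc,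
          lift_snd_assoc, Category.assoc]
    have h2 := congrArg (T.pull (lift (lift (fst Y S) (snd Y S ≫ r ≫ a)) (snd Y S ≫ b))) h1
    rw [T.pull_pull, T.pull_pull, T.pull_pull, T.pull_pull] at h2
    refine (congrArg (fun s => T.pull s x) e).trans (Eq.trans ?_ (h2.trans ?_))
    · rw [Category.assoc]
    · congr 2
      apply CartesianMonoidalCategory.hom_ext
      · simp
      · simp
  | @bridge g₁ g₂ a b c₁ c₂ s σ =>
    have h1 := P.pull_bubMap_bridge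
      (fun d' hd => hB d' hd g₁ (a + 1) (by omega) (by omega) (by simp))
      (fun d' hd => hB d' hd g₂ (b + 1) (by omega) (by omega) (by simp))
      (by omega) (by omega) (by omega) σ hx h hN h0 _ rfl
    have h2 := congrArg (T.pull (lift (lift (lift (fst Y S) (snd Y S ≫ r ≫ c₂))
      (snd Y S ≫ r ≫ c₁)) (snd Y S ≫ s))) h1
    rw [T.pull_pull, T.pull_pull, T.pull_pull, T.pull_pull] at h2
    refine Eq.trans ?_ (h2.trans ?_)
    · congr 2
      apply CartesianMonoidalCategory.hom_ext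
      · simp [bubMap]
      · simp only [bubMap, comp_lift, comp_lift_assoc, lift_snd, whiskerLeft_snd, lift_fst_assoc,
          lift_snd_assoc, Category.assoc, lift_fst]
    · congr 2
      apply CartesianMonoidalCategory.hom_ext
      · simp
      · simp only [comp_lift, comp_lift_assoc, lift_snd, whiskerLeft_snd, lift_fst_assoc,
          lift_fst]

end PrestableCurves

end Run7.h810
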