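import Mathlib

open CategoryTheory MonoidalCategory CartesianMonoidalCategory

/-!
The formal properties of the Chow rings of the moduli stacks of prestable and of stable curves.

Intended model. The base field is algebraically closed of characteristic zero. `C` is the category
of smooth algebraic stacks that are locally of finite type and have affine stabilisers, with
morphisms up to 2-isomorphism; `CH X` is Kresch's Chow ring with rational coefficients, graded by
codimension. All properties below are standard facts about these rings and about families of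
curves.
-/

namespace PrestableChow

universe w v u

/-- Graded commutative `ℚ`-algebras `CH X`, with ring homomorphisms `pull f`. -/
structure ChowRings (C : Type u) [Category.{v} C] where
  /-- the Chow ring -/
  CH : C → Type w
  [ring : ∀ X, CommRing (CH X)]
  [alg : ∀ X, Algebra ℚ (CH X)]
  /-- the classes of codimension `d` -/
  codim : ∀ X, ℕ → Submodule ℚ (CH X)
  [graded : ∀ X, GradedAlgebra (codim X)]
  /-- pullback -/
  pull : ∀ {X Y : C}, (X ⟶ Y) → (CH Y →+* CH X)

attribute [instance] ChowRings.ring ChowRings.alg ChowRings.graded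

section

variable {C : Type u} [Category.{v} C]

/-- the pullback of the class `a` along `f` -/
def ChowRings.res (T : ChowRings.{w} C) {X Y : C} (f : X ⟶ Y) (a : T.CH Y) : T.CH X := T.pull f a

/-- the class `a` has codimension `d` -/
def ChowRings.IsCodim (T : ChowRings.{w} C) {X : C} (d : ℕ) (a : T.CH X) : Prop := a ∈ T.codim X d

/-- Pullback is functorial and preserves the codimension. -/
structure ChowRings.Functorial (T : ChowRings.{w} C) : Prop where
  id : ∀ (X : C) (a : T.CH X), T.res (𝟙 X) a = a
  comp : ∀ {X Y Z : C} (f : X ⟶ Y) (g : Y ⟶ Z) (a : T.CH Z), T.res (f ≫ g) a = T.res f (T.res g a)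
  codim : ∀ {X Y : C} (f : X ⟶ Y) (d : ℕ) (a : T.CH Y), T.IsCodim d a → T.IsCodim d (T.res f a)

end

section

variable {C : Type u} [Category.{v} C] [CartesianMonoidalCategory C]

/-- the class `∑ aᵢ cⁱ` on `X × B` attached to the polynomial `∑ aᵢ tⁱ` over `CH X` -/
noncomputable def ChowRings.value (T : ChowRings.{w} C) {B : C} (c : T.CH B) (X : C)
    (p : Polynomial (T.CH X)) : T.CH (X ⊗ B) :=
  p.eval₂ (T.pull (fst X B)) (T.res (snd X B) c)

/-- A Chow theory: homotopy invariant, with `CH (X × B𝔾ₘ) = CH(X)[c]`. -/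
structure ChowTheory (C : Type u) [Category.{v} C] [CartesianMonoidalCategory C] extends
    ChowRings.{w} C where
  functorial : toChowRings.Functorial
  /-- the affine line with two of its points -/
  A1 : C
  zero : 𝟙_ C ⟶ A1
  one : 𝟙_ C ⟶ A1
  homotopy : ∀ X : C, Function.Surjective (toChowRings.res (fst X A1))
  /-- the classifying stack of the multiplicative group -/
  BGm : C
  /-- the first Chern class of the universal line bundle, up to sign -/
  c : CH BGm
  c_codim : toChowRings.IsCodim 1 c
  poly : ∀ X : C, Function.Bijective (toChowRings.value c X)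

/-- The stacks of prestable and of stable curves with their forgetful and gluing morphisms. For
`(g,n) = (1,0)`, where the Chow theory is not defined, `M 1 0` may be read as the final object;
`Mbar g n` is empty if `2g-2+n ≤ 0`. -/
structure CurveStacks (T : ChowTheory.{w} C) where
  /-- the stack of prestable curves of genus `g` with `n` markings -/
  M : ℕ → ℕ → C
  /-- the stack of stable curves of genus `g` with `n` markings -/
  Mbar : ℕ → ℕ → C
  /-- keep the curve and its first `n` markings; no component is contracted -/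
  F : ∀ (g : ℕ) {n N : ℕ}, n ≤ N → (Mbar g N ⟶ M g n)
  /-- keep the curve and forget the last marking; no component is contracted -/
  f : ∀ g n : ℕ, M g (n + 1) ⟶ M g n
  /-- permute the markings -/
  perm : ∀ (g : ℕ) {n : ℕ}, Equiv.Perm (Fin n) → (M g n ⟶ M g n)
  /-- glue the last marking of the first curve to the last marking of the second curve -/
  sep : ∀ g₁ g₂ a b : ℕ, M g₁ (a + 1) ⊗ M g₂ (b + 1) ⟶ M (g₁ + g₂) (a + b)
  /-- glue the last two markings of a curve to each other -/
  loop : ∀ g n : ℕ, M g (n + 2) ⟶ M (g + 1) n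
  /-- the class `ψ` at the last marking -/
  psi : ∀ g n : ℕ, T.CH (M g (n + 1))

variable {T : ChowTheory.{w} C}

/-- glue the last marking of a curve to the last marking of a rational curve with two markings -/
def CurveStacks.bubble (P : CurveStacks T) (g n : ℕ) :
    P.M g (n + 1) ⊗ P.M 0 2 ⟶ P.M g (n + 1) := P.sep g 0 n 1

/-- glue the last marking of a curve to the marking of a rational curve with one marking -/
def CurveStacks.tail (P : CurveStacks T) (g n : ℕ) :
    P.M g (n + 1) ⊗ P.M 0 1 ⟶ P.M g n := P.sep g 0 n 0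

/-- interchange the two markings of a rational curve -/
def CurveStacks.swap (P : CurveStacks T) : P.M 0 2 ⟶ P.M 0 2 := P.perm 0 (Equiv.swap 0 1)

/-- Compatibility of the forgetful and gluing morphisms of prestable curves. -/
structure CurveStacks.Compatible (P : CurveStacks T) : Prop where
  F_f : ∀ (g : ℕ) {n N : ℕ} (h : n + 1 ≤ N), P.F g h ≫ P.f g n = P.F g (Nat.le_of_succ_le h)
  bubble_f : ∀ g n : ℕ, P.bubble g n ≫ P.f g n = (P.M g (n + 1) ◁ (P.swap ≫ P.f 0 1)) ≫ P.tail g n
  bubble_swap : P.bubble 0 1 ≫ P.swap = lift (snd _ _) (fst _ _) ≫ P.bubble 0 1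

/-- Permuting and gluing markings turns stable curves into stable curves. -/
structure CurveStacks.StableLifts (P : CurveStacks T) : Prop where
  perm : ∀ (g : ℕ) {n N : ℕ} (h : n ≤ N) (σ : Equiv.Perm (Fin n)),
    ∃ t : P.Mbar g N ⟶ P.Mbar g N, t ≫ P.F g h = P.F g h ≫ P.perm g σ
  loop : ∀ (g : ℕ) {n N : ℕ} (h : n ≤ N), ∃ t : P.Mbar g (N + 2) ⟶ P.Mbar (g + 1) N,
    t ≫ P.F (g + 1) h = P.F g (Nat.add_le_add_right h 2) ≫ P.loop g n
  sep : ∀ (g₁ g₂ : ℕ) {a b A B : ℕ} (ha : a ≤ A) (hb : b ≤ B),
    ∃ t : P.Mbar g₁ (A + 1) ⊗ P.Mbar g₂ (B + 1) ⟶ P.Mbar (g₁ + g₂) (A + B),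
      t ≫ P.F (g₁ + g₂) (Nat.add_le_add ha hb) =
        (P.F g₁ (Nat.succ_le_succ ha) ⊗ₘ P.F g₂ (Nat.succ_le_succ hb)) ≫ P.sep g₁ g₂ a b

/-- The smooth rational curves with no marking, with one marking and with two markings: the
classifying stacks of `PGL₂`, of its Borel subgroup and of its maximal torus `𝔾ₘ`. -/
structure SmoothRational (P : CurveStacks T) where
  B₀ : C
  B₁ : C
  j₀ : B₀ ⟶ P.M 0 0
  j₁ : B₁ ⟶ P.M 0 1
  j₂ : T.BGm ⟶ P.M 0 2
  /-- forget the marking -/
  φ₀ : B₁ ⟶ B₀
  /-- forget the first marking -/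
  φ₁ : T.BGm ⟶ B₁
  φ₀_j₀ : φ₀ ≫ j₀ = j₁ ≫ P.f 0 0
  φ₁_j₁ : φ₁ ≫ j₁ = j₂ ≫ P.swap ≫ P.f 0 1
  φ₀_inj : ∀ Y : C, Function.Injective (T.res (Y ◁ φ₀))
  φ₁_inj : ∀ Y : C, Function.Injective (T.res (Y ◁ φ₁))
  psi_two : T.res j₂ (P.psi 0 1) = T.c
  psi_one : T.res (φ₁ ≫ j₁) (P.psi 0 0) = T.c

/-- The blow-up of `curve × 𝔸¹` in the last marking over `0`, with the strict transform of the last
marking: a family of prestable curves over `𝔐_{g,n+1} × 𝔸¹` whose member over `1` is the given curve
and whose member over `0` is the given curve with the rational curve `ℙ(T ⊕ 𝒪)` attached at the last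
marking, where `T` is the tangent line there. -/
structure BlowUp {P : CurveStacks T} (R : SmoothRational P) (g n : ℕ) where
  /-- the classifying morphism of `ℙ(T ⊕ 𝒪)` with its sections `0` and `∞` -/
  ell : P.M g (n + 1) ⟶ T.BGm
  ell_c : T.res ell T.c = -P.psi g n
  family : P.M g (n + 1) ⊗ T.A1 ⟶ P.M g (n + 1)
  over_one : lift (𝟙 _) (toUnit _ ≫ T.one) ≫ family = 𝟙 _
  over_zero : lift (𝟙 _) (toUnit _ ≫ T.zero) ≫ family = lift (𝟙 _) (ell ≫ R.j₂) ≫ P.bubble g n

/-- the class `ψ` at the last marking of stable curves, on `Y × M̄_{g,N+1}` -/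
def CurveStacks.psiLast (P : CurveStacks T) (Y : C) (g N : ℕ) : T.CH (Y ⊗ P.Mbar g (N + 1)) :=
  T.res (snd Y _ ≫ P.F g (Nat.le_refl (N + 1))) (P.psi g N)

/-- the class `ψᵏ`, with `ψ` at the second marking of stable rational curves,
on `Y × M̄_{0,i+3}` -/
def CurveStacks.psiTwo (P : CurveStacks T) (Y : C) (i k : ℕ) : T.CH (Y ⊗ P.Mbar 0 (i + 3)) :=
  T.res (snd Y _ ≫ P.F 0 (Nat.le_add_left 2 (i + 1))) (P.psi 0 1 ^ k)

/-- every class with restriction zero is killed by `ψ` -/
def KillsKernel {A B : Type w} [CommRing A] [CommRing B] (restriction : A → B) (ψ : A) : Prop :=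
  ∀ a, restriction a = 0 → ψ * a = 0

/-- there is a push-forward with `push (ψ · pullback b) = k b` -/
def PushOfPull {A B : Type w} [CommRing A] [CommRing B] [Algebra ℚ B] (pullback : B → A) (ψ : A)
    (k : ℚ) : Prop :=
  ∃ push : A →+ B, ∀ b, push (ψ * pullback b) = k • b

/-- there is a push-forward with `push (δ · a) = restriction a` -/
def PushToPoint {A B : Type w} [CommRing A] [CommRing B] (restriction : A → B) (δ : A) : Prop :=
  ∃ push : A →+ B, ∀ a, push (δ * a) = restriction a

/-- The localisation sequence and the self-intersection formula for a closed stratum with class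
`e` of the normal bundle: there is a push-forward from the stratum whose image is the kernel of the
restriction to the open complement, and whose restriction to the stratum is multiplication
by `e`. -/
def LocalisationSequence {A B D : Type w} [CommRing A] [CommRing B] [CommRing D]
    (toOpen : A → B) (toStratum : A → D) (e : D) : Prop :=
  ∃ push : D →+ A, (∀ x, toOpen x = 0 → ∃ s, push s = x) ∧ ∀ s, toStratum (push s) = e * s

/-- The forgetful morphism `π` of stable curves (with contraction): the open locus `V` where nothing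
is contracted, the vanishing of `ψ` at the last marking on its complement, and the dilaton equation
`π_*(ψ · π^* b) = (2g-2+N) b`. -/
structure Dilaton (P : CurveStacks T) (g N : ℕ) where
  π : P.Mbar g (N + 1) ⟶ P.Mbar g N
  V : C
  i : V ⟶ P.Mbar g (N + 1)
  no_contraction : ∀ (n : ℕ) (h : n ≤ N), i ≫ P.F g (Nat.le_succ_of_le h) = i ≫ π ≫ P.F g h
  vanish : ∀ Y : C, KillsKernel (T.res (Y ◁ i)) (P.psiLast Y g N)
  dilaton : ∀ Y : C, PushOfPull (T.res (Y ◁ π)) (P.psiLast Y g N) (2 * (g : ℚ) - 2 + N)

/-- On the `i`-dimensional `M̄_{0,i+3}` the class `ψ` at the second marking satisfies `ψ^(i+1) = 0`,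
and `ψ^i` is the class of a point in the interior. -/
structure PointClass {P : CurveStacks T} (R : SmoothRational P) (i : ℕ) where
  pt : 𝟙_ C ⟶ P.Mbar 0 (i + 3)
  b : 𝟙_ C ⟶ T.BGm
  smooth : pt ≫ P.F 0 (Nat.le_add_left 2 (i + 1)) = b ≫ R.j₂
  b_c : T.res b T.c = 0
  psi_pow : T.res (P.F 0 (Nat.le_add_left 2 (i + 1))) (P.psi 0 1 ^ (i + 1)) = 0
  psi_point : ∀ Y : C, PushToPoint (T.res (lift (𝟙 Y) (toUnit Y ≫ pt))) (P.psiTwo Y i i)

/-- `Contraction r κ κ'`: the family of curves `κ` over `S` is obtained from the family `κ'` over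
`W`, pulled back along `r : S ⟶ W`, by attaching or inserting a smooth rational component `R` that
has at most two special points. -/
inductive Contraction {P : CurveStacks T} (Q : SmoothRational P) {S W : C} (r : S ⟶ W) :
    ∀ {g n : ℕ}, (S ⟶ P.M g n) → (W ⟶ P.M g n) → Prop
  /-- `R` has one special point, a node -/
  | tail {g n : ℕ} (a : W ⟶ P.M g (n + 1)) (b : S ⟶ Q.B₁) :
      Contraction Q r (lift (r ≫ a) (b ≫ Q.j₁) ≫ P.tail g n) (a ≫ P.f g n)
  /-- `R` has two special points, a node and a marking -/
  | leg {g n : ℕ} (a : W ⟶ P.M g (n + 1)) (b : S ⟶ T.BGm) (σ : Equiv.Perm (Fin (n + 1))) :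
      Contraction Q r (lift (r ≫ a) (b ≫ Q.j₂) ≫ P.bubble g n ≫ P.perm g σ) (a ≫ P.perm g σ)
  /-- `R` has two special points, both nodes, and the rest of the curve is connected -/
  | loop {g n : ℕ} (a : W ⟶ P.M g (n + 2)) (b : S ⟶ T.BGm) :
      Contraction Q r (lift (r ≫ a) (b ≫ Q.j₂) ≫ P.bubble g (n + 1) ≫ P.loop g n) (a ≫ P.loop g n)
  /-- `R` has two special points, both nodes, and the rest of the curve is disconnected -/
  | bridge {g₁ g₂ a b : ℕ} (c₁ : W ⟶ P.M g₁ (a + 1)) (c₂ : W ⟶ P.M g₂ (b + 1)) (s : S ⟶ T.BGm)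
      (σ : Equiv.Perm (Fin (a + b))) :
      Contraction Q r
        (lift (lift (r ≫ c₁) (s ≫ Q.j₂) ≫ P.bubble g₁ a) (r ≫ c₂) ≫ P.sep g₁ g₂ a b ≫ P.perm _ σ)
        (lift c₁ c₂ ≫ P.sep g₁ g₂ a b ≫ P.perm _ σ)

/-- The Euler class `-ψ' - ψ` of the smoothing of a node one of whose branches lies on a smooth
rational component with one special point: on the product `X × B₁` over which that component varies,
`ψ'` comes from `X` and `ψ` from `B₁`. -/
def edgeOne {P : CurveStacks T} (Q : SmoothRational P) {X : C} (a : T.CH X) : T.CH (X ⊗ Q.B₁) :=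
  T.res (fst X _) a - T.res (snd X _ ≫ Q.j₁) (P.psi 0 0)

/-- The same for a smooth rational component with two special points. -/
def edgeTwo {X : C} (a : T.CH X) : T.CH (X ⊗ T.BGm) :=
  T.res (fst X _) a - T.res (snd X _) T.c

/-- A class on a product of moduli stacks that is of the form `edgeOne` or `edgeTwo`. -/
inductive IsEdgeClass {P : CurveStacks T} (Q : SmoothRational P) {S : C} : T.CH S → Prop
  | one (X : C) (a : T.CH X) (e : S ≅ X ⊗ Q.B₁) : IsEdgeClass Q (T.res e.hom (edgeOne Q a))
  | two (X : C) (a : T.CH X) (e : S ≅ X ⊗ T.BGm) : IsEdgeClass Q (T.res e.hom (edgeTwo a))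

/-- The open part with which the stratification of `𝔐_{g,n}` starts: the stable curves, and for
`g = 0`, `n ≤ 2` the smooth curves. -/
inductive IsBase {P : CurveStacks T} (Q : SmoothRational P) : ∀ {g n : ℕ} (U : C),
    (U ⟶ P.M g n) → Prop
  | stable {g n : ℕ} (h : 2 < 2 * g + n) : IsBase Q (P.Mbar g n) (P.F g (Nat.le_refl n))
  | zero : IsBase Q Q.B₀ Q.j₀
  | one : IsBase Q Q.B₁ Q.j₁
  | two : IsBase Q T.BGm Q.j₂

/-- A smooth closed stratum `S` of the open substack `U'` of `𝔐_{g,n}`, with complement `U`: the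
curves with a given dual graph, in which the connected unions of components of positive genus or
with at least three special points count as single vertices. -/
structure Stratum {P : CurveStacks T} (Q : SmoothRational P) {g n : ℕ} {U U' : C} (i : U ⟶ U')
    (j' : U' ⟶ P.M g n) where
  S : C
  ι : S ⟶ U'
  /-- the top Chern class of the normal bundle -/
  e : T.CH S
  localisation : ∀ Y : C,
    LocalisationSequence (T.res (Y ◁ i)) (T.res (Y ◁ ι)) (T.res (snd Y S) e)
  /-- the finite étale cover on which the nodes and their branches are ordered -/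
  S' : C
  q : S' ⟶ S
  q_injective : ∀ Y : C, Function.Injective (T.res (Y ◁ q))
  /-- on the cover the normal bundle is the sum of the smoothings of the nodes -/
  nodes : List (T.CH S')
  nodes_prod : T.res q e = nodes.prod
  nodes_edge : ∀ ε ∈ nodes, IsEdgeClass Q ε
  /-- one of the rational components can be contracted, and the result lies in `U` -/
  W : C
  r : S' ⟶ W
  c : W ⟶ U
  contraction : Contraction Q r (q ≫ ι ≫ j') (c ≫ i ≫ j')

/-- Every nonzero class of codimension `d` on `Y × 𝔐_{g,n}` is nonzero on `Y × U`. -/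
def Detects {P : CurveStacks T} {g n : ℕ} {U : C} (j : U ⟶ P.M g n) (d : ℕ) : Prop :=
  ∀ (Y : C) (x : T.CH (Y ⊗ P.M g n)), T.IsCodim d x → T.res (Y ◁ j) x = 0 → x = 0

/-- A filtration of `𝔐_{g,n}` by open substacks `U k`, each obtained from the previous one by adding
one stratum; the codimension of the complement of `U k` tends to infinity. -/
structure Stratification {P : CurveStacks T} (Q : SmoothRational P) (g n : ℕ) where
  U : ℕ → C
  j : ∀ k, U k ⟶ P.M g n
  i : ∀ k, U k ⟶ U (k + 1)
  i_j : ∀ k, i k ≫ j (k + 1) = j k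
  base : IsBase Q (U 0) (j 0)
  stratum : ∀ k, Stratum Q (i k) (j (k + 1))
  exhaust : ∀ d, ∃ k, Detects (j k) d

/-- The moduli stacks of prestable and of stable curves with all the above. -/
structure PrestableCurves (T : ChowTheory.{w} C) extends CurveStacks T where
  compatible : toCurveStacks.Compatible
  stableLifts : toCurveStacks.StableLifts
  smoothRational : SmoothRational toCurveStacks
  blowUp : ∀ g n : ℕ, BlowUp smoothRational g n
  dilaton : ∀ g N : ℕ, 2 < 2 * g + N → Dilaton toCurveStacks g N
  pointClass : ∀ i : ℕ, PointClass smoothRational i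
  stratification : ∀ g n : ℕ, (g, n) ≠ (1, 0) → Stratification smoothRational g n

end

end PrestableChow
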