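import Mathlib

open CategoryTheory MonoidalCategory CartesianMonoidalCategory

namespace Run7.h810

universe w v u

/-- A *Chow theory* on a category `C` with finite products.

Intended model: `C` is the category of smooth algebraic stacks over an algebraically closed field
of characteristic zero that are locally of finite type and have affine stabilisers, with morphisms
taken up to 2-isomorphism, and `CH X` is Kresch's Chow ring of `X` with rational coefficients,
graded by codimension. -/
structure ChowTheory (C : Type u) [Category.{v} C] [CartesianMonoidalCategory C] where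
  /-- the Chow ring -/
  CH : C → Type w
  [ring : ∀ X, CommRing (CH X)]
  [alg : ∀ X, Algebra ℚ (CH X)]
  /-- the codimension `d` part -/
  gr : ∀ X, ℕ → Submodule ℚ (CH X)
  [graded : ∀ X, GradedAlgebra (gr X)]
  /-- pullback along a morphism -/
  pull : ∀ {X Y : C}, (X ⟶ Y) → CH Y →ₐ[ℚ] CH X
  pull_id : ∀ (X : C) (a : CH X), pull (𝟙 X) a = a
  pull_pull : ∀ {X Y Z : C} (f : X ⟶ Y) (g : Y ⟶ Z) (a : CH Z),
    pull f (pull g a) = pull (f ≫ g) a
  pull_mem : ∀ {X Y : C} (f : X ⟶ Y) (d : ℕ) (a : CH Y), a ∈ gr Y d → pull f a ∈ gr X d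
  /-- the affine line with two of its points -/
  A1 : C
  zero : 𝟙_ C ⟶ A1
  one : 𝟙_ C ⟶ A1
  /-- homotopy invariance -/
  homotopy : ∀ X : C, Function.Surjective (pull (fst X A1))
  /-- the classifying stack of the multiplicative group -/
  BGm : C
  /-- the first Chern class of the universal line bundle, up to sign -/
  c : CH BGm
  c_mem : c ∈ gr BGm 1
  /-- `CH (X × B𝔾ₘ) = CH(X)[c]` -/
  poly : ∀ X : C, Function.Bijective
    (Polynomial.eval₂RingHom (pull (fst X BGm)).toRingHom (pull (snd X BGm) c))

attribute [instance] ChowTheory.ring ChowTheory.alg ChowTheory.graded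

namespace ChowTheory

variable {C : Type u} [Category.{v} C] [CartesianMonoidalCategory C] (T : ChowTheory.{w} C)

/-- the ring isomorphism `CH (X × B𝔾ₘ) = CH(X)[c]` -/
noncomputable def co (X : C) : T.CH (X ⊗ T.BGm) ≃+* Polynomial (T.CH X) :=
  (RingEquiv.ofBijective _ (T.poly X)).symm

lemma co_symm_apply (X : C) (p : Polynomial (T.CH X)) :
    (T.co X).symm p = p.eval₂ (T.pull (fst X T.BGm)).toRingHom (T.pull (snd X T.BGm) T.c) := rfl

/-- restriction of a class on `X × B𝔾ₘ` along a morphism, in terms of its polynomial -/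
lemma pull_lift_eq {X X' : C} (g : X' ⟶ X) (s : X' ⟶ T.BGm) (P : T.CH (X ⊗ T.BGm)) :
    T.pull (lift g s) P = (T.co X P).eval₂ (T.pull g).toRingHom (T.pull s T.c) := by
  obtain ⟨p, rfl⟩ := (T.co X).symm.surjective P
  rw [RingEquiv.apply_symm_apply, co_symm_apply]
  have := Polynomial.hom_eval₂ p (T.pull (fst X T.BGm)).toRingHom (T.pull (lift g s)).toRingHom
    (T.pull (snd X T.BGm) T.c)
  refine this.trans ?_
  congr 1
  · ext a
    simp [T.pull_pull]
  · simp [T.pull_pull]

/-- naturality of the polynomial -/
lemma co_pull {X X' : C} (g : X' ⟶ X) (P : T.CH (X ⊗ T.BGm)) :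
    T.co X' (T.pull (g ▷ T.BGm) P) = (T.co X P).map (T.pull g).toRingHom := by
  apply (T.co X').symm.injective
  rw [RingEquiv.symm_apply_apply, co_symm_apply, Polynomial.eval₂_map]
  have h : g ▷ T.BGm = lift (fst X' T.BGm ≫ g) (snd X' T.BGm) := by
    apply CartesianMonoidalCategory.hom_ext <;> simp
  rw [h, pull_lift_eq]
  congr 1
  ext a
  simp [T.pull_pull]

lemma co_fst {X : C} (a : T.CH X) :
    T.co X (T.pull (fst X T.BGm) a) = Polynomial.C a := by
  apply (T.co X).symm.injective
  rw [RingEquiv.symm_apply_apply, co_symm_apply, Polynomial.eval₂_C]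
  rfl

lemma co_snd {X : C} :
    T.co X (T.pull (snd X T.BGm) T.c) = Polynomial.X := by
  apply (T.co X).symm.injective
  rw [RingEquiv.symm_apply_apply, co_symm_apply, Polynomial.eval₂_X]

/-- coefficients of homogeneous classes are homogeneous -/
lemma co_mem {X : C} {d : ℕ} {P : T.CH (X ⊗ T.BGm)} (hP : P ∈ T.gr _ d) (j : ℕ) :
    (j ≤ d → (T.co X P).coeff j ∈ T.gr X (d - j)) ∧ (d < j → (T.co X P).coeff j = 0) := by
  classical
  set p := T.co X P with hp
  -- the homogeneous part of the polynomial
  let q : Polynomial (T.CH X) := ∑ i ∈ p.support,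
    if i ≤ d then Polynomial.monomial i
      ((DirectSum.decompose (T.gr X) (p.coeff i) (d - i) : T.gr X (d - i)) : T.CH X) else 0
  have key : ∀ i (a : T.CH X),
      ((DirectSum.decompose (T.gr (X ⊗ T.BGm))
        (T.pull (fst X T.BGm) a * T.pull (snd X T.BGm) T.c ^ i) d : T.gr _ d) :
        T.CH (X ⊗ T.BGm)) =
      if i ≤ d then T.pull (fst X T.BGm)
        ((DirectSum.decompose (T.gr X) a (d - i) : T.gr X (d - i)) : T.CH X) *
        T.pull (snd X T.BGm) T.c ^ i else 0 := by
    intro i a
    have hc : T.pull (snd X T.BGm) T.c ^ i ∈ T.gr (X ⊗ T.BGm) i := by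
      have := SetLike.pow_mem_graded i (T.pull_mem (snd X T.BGm) 1 T.c T.c_mem)
      simpa using this
    have hdec : ∀ e, ((DirectSum.decompose (T.gr (X ⊗ T.BGm)) (T.pull (fst X T.BGm) a) e :
        T.gr _ e) : T.CH (X ⊗ T.BGm)) =
        T.pull (fst X T.BGm) ((DirectSum.decompose (T.gr X) a e : T.gr X e) : T.CH X) := by
      intro e
      conv_lhs => rw [← DirectSum.sum_support_decompose (T.gr X) a]
      rw [map_sum, DirectSum.decompose_sum, DirectSum.sum_apply]
      rw [AddSubmonoidClass.coe_finsetSum]
      by_cases he : e ∈ (DirectSum.decompose (T.gr X) a).support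
      · rw [Finset.sum_eq_single_of_mem e he]
        · rw [DirectSum.decompose_of_mem_same]
          exact T.pull_mem _ _ _ (SetLike.coe_mem _)
        · intro b _ hb
          exact DirectSum.decompose_of_mem_ne _ (T.pull_mem _ _ _ (SetLike.coe_mem _)) hb
      · rw [Finset.sum_eq_zero]
        · have : DirectSum.decompose (T.gr X) a e = 0 := by
            simpa using he
          rw [this]
          simp
        · intro b hb
          refine DirectSum.decompose_of_mem_ne _ (T.pull_mem _ _ _ (SetLike.coe_mem _)) ?_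
          rintro rfl
          exact he hb
    split_ifs with hi
    · rw [DirectSum.coe_decompose_mul_of_right_mem_of_le _ hc hi, hdec]
    · rw [DirectSum.coe_decompose_mul_of_right_mem_of_not_le _ hc hi]
  have hPp : P = p.eval₂ (T.pull (fst X T.BGm)).toRingHom (T.pull (snd X T.BGm) T.c) := by
    rw [← co_symm_apply, hp, RingEquiv.symm_apply_apply]
  have hq : P = q.eval₂ (T.pull (fst X T.BGm)).toRingHom (T.pull (snd X T.BGm) T.c) := by
    have h1 : P = ((DirectSum.decompose (T.gr (X ⊗ T.BGm)) P d : T.gr _ d) :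
        T.CH (X ⊗ T.BGm)) := (DirectSum.decompose_of_mem_same _ hP).symm
    rw [h1]
    conv_lhs => rw [hPp, Polynomial.eval₂_eq_sum, Polynomial.sum_def]
    rw [DirectSum.decompose_sum, DirectSum.sum_apply, AddSubmonoidClass.coe_finsetSum]
    rw [Polynomial.eval₂_finsetSum]
    refine Finset.sum_congr rfl ?_
    intro i _
    refine (key i (p.coeff i)).trans ?_
    split_ifs with hi
    · rw [Polynomial.eval₂_monomial]; rfl
    · simp
  have hpq : p = q := by
    apply (T.co X).symm.injective
    rw [co_symm_apply, co_symm_apply, ← hPp, ← hq]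
  have hcoeff : q.coeff j = if j ≤ d then
      ((DirectSum.decompose (T.gr X) (p.coeff j) (d - j) : T.gr X (d - j)) : T.CH X) else 0 := by
    simp only [q, Polynomial.finsetSum_coeff]
    by_cases hj : j ∈ p.support
    · rw [Finset.sum_eq_single_of_mem j hj]
      · split_ifs <;> simp
      · intro b _ hb
        split_ifs
        · rw [Polynomial.coeff_monomial, if_neg hb]
        · simp
    · have hz : p.coeff j = 0 := by simpa using hj
      rw [Finset.sum_eq_zero]
      · rw [hz]; simp
      · intro b hb
        split_ifs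
        · rw [Polynomial.coeff_monomial, if_neg]
          rintro rfl; exact hj hb
        · simp
  constructor
  · intro hj
    rw [hpq, hcoeff, if_pos hj]
    exact SetLike.coe_mem _
  · intro hj
    rw [hpq, hcoeff, if_neg (by omega)]

/-- two points of the affine line give the same pullback -/
lemma homotopy_eq {X Z : C} (K : X ⊗ T.A1 ⟶ Z) (a : T.CH Z) :
    T.pull (lift (𝟙 X) (toUnit X ≫ T.zero) ≫ K) a =
      T.pull (lift (𝟙 X) (toUnit X ≫ T.one) ≫ K) a := by
  obtain ⟨b, hb⟩ := T.homotopy X (T.pull K a)
  rw [← T.pull_pull, ← T.pull_pull, ← hb, T.pull_pull, T.pull_pull]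
  simp

end ChowTheory

end Run7.h810
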